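import Pool.Agent.H24.LV.Targets

/-!
# Row JP of lvp_modules: the bound of Johnson along the tower
-/

set_option autoImplicit false

open Finset MeasureTheory

namespace Pool.Agent.H84.LVP

open Pool.Agent.H24.CL Pool.Agent.H24.LV

open Classical in
/-- pairs with the same image -/
theorem cs_pairs {α β : Type} (S : Finset α) (g : α → β) (ν : ℝ)
    (h : ∀ Z : Finset β, (∀ z ∈ Z, ∃ w ∈ S, g w = z) → (Z.card : ℝ) ≤ ν) :
    (S.card : ℝ) ^ 2 ≤ ν * (((S ×ˢ S).filter (fun p => g p.1 = g p.2)).card : ℝ) := by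
  have h1 : (((S ×ˢ S).filter (fun p => g p.1 = g p.2)).card : ℝ) =
      ∑ z ∈ S.image g, ((S.filter (fun w => g w = z)).card : ℝ) ^ 2 := by
    have e1 : ((S ×ˢ S).filter (fun p => g p.1 = g p.2)).card =
        ∑ w ∈ S, (S.filter (fun w' => g w' = g w)).card := by
      rw [Finset.card_filter, Finset.sum_product]
      refine Finset.sum_congr rfl (fun w _ => ?_)
      rw [Finset.card_filter]
      refine Finset.sum_congr rfl (fun w' _ => ?_)
      by_cases h : g w = g w'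
      · rw [if_pos h, if_pos h.symm]
      · rw [if_neg h, if_neg (fun h' => h h'.symm)]
    rw [e1, Finset.sum_comp (fun z => (S.filter (fun w' => g w' = z)).card) g, Nat.cast_sum]
    refine Finset.sum_congr rfl (fun z _ => ?_)
    rw [smul_eq_mul, Nat.cast_mul, sq]
  have h2 : (S.card : ℝ) = ∑ z ∈ S.image g, ((S.filter (fun w => g w = z)).card : ℝ) := by
    exact_mod_cast Finset.card_eq_sum_card_image g S
  rw [h1, h2]
  refine le_trans sq_sum_le_card_mul_sum_sq (mul_le_mul_of_nonneg_right ?_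
    (Finset.sum_nonneg (fun _ _ => sq_nonneg _)))
  exact h _ (fun z hz => by
    obtain ⟨w, hw, hwz⟩ := Finset.mem_image.1 hz
    exact ⟨w, hw, hwz⟩)

open Classical in
theorem johnson {α β : Type} (Y : Finset α) (q : ℕ) (D : α → Finset ℕ) (g : ℕ → α → β)
    (B ν : ℝ) (K : ℕ) (hB : 1 ≤ B) (hq : 1 ≤ q) (hν0 : 0 < ν)
    (hD : ∀ w ∈ Y, D w ⊆ range q ∧ (q : ℝ) / B ≤ ((D w).card : ℝ))
    (hν : ∀ b < q, ∀ Z : Finset β, (∀ z ∈ Z, ∃ w ∈ Y, b ∈ D w ∧ g b w = z) → (Z.card : ℝ) ≤ ν)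
    (hK : ∀ w ∈ Y, ∀ w' ∈ Y, w ≠ w' → ∀ S : Finset ℕ, (∀ b ∈ S, b < q ∧ g b w = g b w') →
      S.card ≤ K)
    (hbig : 2 * (K : ℝ) * B ^ 2 * ν ≤ q) : (Y.card : ℝ) ≤ 2 * B ^ 2 * ν := by
  set S : ℕ → Finset α := fun b => Y.filter (fun w => b ∈ D w) with hS
  set P : ℕ → Finset (α × α) := fun b => (S b ×ˢ S b).filter (fun p => g b p.1 = g b p.2) with hP
  have h1 : ∀ b ∈ range q, ((S b).card : ℝ) ^ 2 ≤ ν * ((P b).card : ℝ) := by
    intro b hb
    refine cs_pairs (S b) (g b) ν (fun Z hZ => hν b (mem_range.1 hb) Z (fun z hz => ?_))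
    obtain ⟨w, hw, hwz⟩ := hZ z hz
    rw [hS, mem_filter] at hw
    exact ⟨w, hw.1, hw.2, hwz⟩
  have h2 : ∑ b ∈ range q, (P b).card ≤ Y.card * q + Y.card ^ 2 * K := by
    have e1 : ∀ b ∈ range q, (P b).card ≤ ∑ w ∈ Y, ∑ w' ∈ Y,
        (if g b w = g b w' then 1 else 0) := by
      intro b _
      rw [← Finset.sum_product', ← Finset.card_filter]
      refine Finset.card_le_card (fun p hp => ?_)
      rw [hP, mem_filter, mem_product, hS, mem_filter, mem_filter] at hp
      rw [mem_filter, mem_product]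
      exact ⟨⟨hp.1.1.1, hp.1.2.1⟩, hp.2⟩
    refine le_trans (Finset.sum_le_sum e1) ?_
    rw [Finset.sum_comm]
    have e2 : ∀ w ∈ Y, ∑ b ∈ range q, ∑ w' ∈ Y, (if g b w = g b w' then 1 else 0) ≤
        q + Y.card * K := by
      intro w hw
      rw [Finset.sum_comm]
      have e3 : ∀ w' ∈ Y, ∑ b ∈ range q, (if g b w = g b w' then 1 else 0) ≤
          (if w' = w then q else 0) + K := by
        intro w' hw'
        rw [← Finset.card_filter]
        by_cases h : w' = w
        · rw [if_pos h]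
          refine le_trans (Finset.card_filter_le _ _) ?_
          rw [card_range]
          omega
        · rw [if_neg h, zero_add]
          refine hK w hw w' hw' (fun h' => h h'.symm) _ (fun b hb => ?_)
          rw [mem_filter, mem_range] at hb
          exact hb
      refine le_trans (Finset.sum_le_sum e3) ?_
      rw [Finset.sum_add_distrib, Finset.sum_ite_eq', if_pos hw, Finset.sum_const, smul_eq_mul]
    refine le_trans (Finset.sum_le_sum e2) (le_of_eq ?_)
    rw [Finset.sum_const, smul_eq_mul]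
    ring
  have h3 : (Y.card : ℝ) * (q / B) ≤ ∑ b ∈ range q, ((S b).card : ℝ) := by
    have e1 : ∑ b ∈ range q, (S b).card = ∑ w ∈ Y, (D w).card := by
      have e2 : ∀ b ∈ range q, (S b).card = ∑ w ∈ Y, (if b ∈ D w then 1 else 0) := by
        intro b _
        rw [hS, Finset.card_filter]
      rw [Finset.sum_congr rfl e2, Finset.sum_comm]
      refine Finset.sum_congr rfl (fun w hw => ?_)
      rw [← Finset.card_filter]
      congr 1
      ext b
      rw [mem_filter]
      exact ⟨fun h => h.2, fun h => ⟨(hD w hw).1 h, h⟩⟩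
    have e3 : ∑ b ∈ range q, ((S b).card : ℝ) = ∑ w ∈ Y, ((D w).card : ℝ) := by
      exact_mod_cast e1
    rw [e3, ← nsmul_eq_mul, ← Finset.sum_const]
    exact Finset.sum_le_sum (fun w hw => (hD w hw).2)
  have h4 : (∑ b ∈ range q, ((S b).card : ℝ)) ^ 2 ≤ q * ∑ b ∈ range q, ((S b).card : ℝ) ^ 2 := by
    have := sq_sum_le_card_mul_sum_sq (s := range q) (f := fun b => ((S b).card : ℝ))
    rwa [card_range] at this
  have h5 : ∑ b ∈ range q, ((S b).card : ℝ) ^ 2 ≤ ν * (Y.card * q + Y.card ^ 2 * K) := by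
    refine le_trans (Finset.sum_le_sum h1) ?_
    rw [← Finset.mul_sum]
    refine mul_le_mul_of_nonneg_left ?_ hν0.le
    exact_mod_cast h2
  set y : ℝ := (Y.card : ℝ) with hy
  have hy0 : 0 ≤ y := Nat.cast_nonneg _
  have hq0 : (0 : ℝ) < q := by exact_mod_cast hq
  have hB0 : (0 : ℝ) < B := by linarith
  have h6 : (y * (q / B)) ^ 2 ≤ q * (ν * (y * q + y ^ 2 * K)) := by
    refine le_trans (pow_le_pow_left₀ (by positivity) h3 2) (le_trans h4 ?_)
    exact mul_le_mul_of_nonneg_left h5 hq0.le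
  by_contra hcon
  have hcon := not_le.1 hcon
  have hy1 : 0 < y := lt_of_le_of_lt (by positivity) hcon
  have h7 : y * q ≤ B ^ 2 * ν * (q + y * K) := by
    have e1 : (y * (q / B)) ^ 2 = (y * q) * (y * q / B ^ 2) := by
      field_simp
    have e2 : (q : ℝ) * (ν * (y * q + y ^ 2 * K)) = (y * q) * (ν * (q + y * K)) := by ring
    rw [e1, e2] at h6
    have h8 := le_of_mul_le_mul_left h6 (by positivity)
    rw [div_le_iff₀ (by positivity)] at h8
    linarith
  have h8 : 2 * (y * K) * (B ^ 2 * ν) ≤ y * q := by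
    have := mul_le_mul_of_nonneg_left hbig hy0
    linarith
  have h9 : y * q ≤ 2 * B ^ 2 * ν * q := by linarith
  have h10 := le_of_mul_le_mul_right h9 hq0
  linarith

theorem mem_H {k q r : ℕ} {a : X k} : a ∈ H k q r ↔ q ^ r • a = 0 := by
  unfold H
  rw [AddMonoidHom.mem_ker]
  rfl

theorem zero_of_cop {A : Type} [AddCommGroup A] {m n : ℕ} (h : m.Coprime n) {z : A}
    (h1 : m • z = 0) (h2 : n • z = 0) : z = 0 := by
  have h3 := Nat.dvd_gcd (addOrderOf_dvd_of_nsmul_eq_zero h1) (addOrderOf_dvd_of_nsmul_eq_zero h2)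
  rw [h] at h3
  exact AddMonoid.addOrderOf_eq_one_iff.1 (Nat.dvd_one.1 h3)

/-- the differences of the children -/
theorem phi_mem {k p q r b : ℕ} (hTO : T_TO) (hq : 1 ≤ q) {d : X k}
    (hd : d ∈ H k p k ⊔ H k q (r + 1)) : phi q b d ∈ H k p k ⊔ H k q r := by
  obtain ⟨hp, h1, hq', h2, rfl⟩ := AddSubgroup.mem_sup.1 hd
  rw [map_add]
  refine AddSubgroup.add_mem_sup ?_ ?_
  · rw [mem_H] at h1 ⊢
    rw [← map_nsmul, h1, map_zero]
  · rw [mem_H] at h2 ⊢
    rw [← map_nsmul]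
    refine (hTO k q hq).2.2.2.2.2 b _ ?_
    rw [mem_H, ← mul_nsmul', pow_one, ← pow_succ', h2]

theorem few_common {k p q r : ℕ} (hSH : T_SH) (hCO : L_CO) (hp : p.Prime) (hq : q.Prime)
    (hpq : p ≠ q) (hkq : k < q) (hr : r ≤ k) {d : X k} (hd : d ∈ H k p k ⊔ H k q r)
    (hd1 : d ∉ H k q 1) (S : Finset ℕ) (hS : ∀ b ∈ S, b < q ∧ phi q b d = 0) :
    S.card ≤ k - 1 := by
  obtain ⟨u, h1, v, h2, rfl⟩ := AddSubgroup.mem_sup.1 hd
  rcases S.eq_empty_or_nonempty with rfl | ⟨b, hb⟩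
  · simp
  have hcop : (p ^ k).Coprime (q ^ r) :=
    Nat.Coprime.pow _ _ ((Nat.coprime_primes hp hq).2 hpq)
  have hcop2 : q.Coprime (p ^ k) :=
    Nat.Coprime.pow_right _ ((Nat.coprime_primes hq hp).2 hpq.symm)
  rw [mem_H] at h1
  have h3 : phi q b u = 0 := by
    have e1 := (hS b hb).2
    rw [map_add] at e1
    have e2 : phi q b u = - phi q b v := eq_neg_of_add_eq_zero_left e1
    refine zero_of_cop hcop ?_ ?_
    · rw [← map_nsmul, h1, map_zero]
    · rw [mem_H] at h2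
      rw [e2, smul_neg, ← map_nsmul, h2, map_zero, neg_zero]
  have h4 : u = 0 := hCO.2.2.1 k q b (p ^ k) u hcop2 h1 h3
  rw [h4, zero_add] at hd1 hS
  refine hSH k q hq hkq v ?_ hd1 S hS
  rw [mem_H] at h2 ⊢
  have : q ^ k = q ^ (k - r) * q ^ r := by rw [← pow_add]; congr 1; omega
  rw [this, mul_nsmul', h2, smul_zero]

open Classical in
/-- the step of the induction -/
theorem jp_step {k p q r : ℕ} (hTO : T_TO) (hSH : T_SH) (hCO : L_CO) (hp : p.Prime)
    (hq : q.Prime) (hpq : p ≠ q) (hkq : k < q) (hr : r + 1 ≤ k) {W0 W1 : Set (X k)}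
    {B F ν : ℝ} (hB : 1 ≤ B) (hF : 1 ≤ F) (hν : 0 < ν) (hCar : Car q W0 W1 ((q : ℝ) / B))
    (hCnt : Cnt (H k q 1) W0 F) (h1 : Cnt (H k p k ⊔ H k q r) W1 ν)
    (hbig : 2 * ((k - 1 : ℕ) : ℝ) * B ^ 2 * ν ≤ q) :
    Cnt (H k p k ⊔ H k q (r + 1)) W0 (2 * B ^ 2 * F * ν) := by
  intro Y hY hYd
  have hF0 : 0 < F := by linarith
  -- classes modulo `H k q 1`
  set mk : X k → X k ⧸ H k q 1 := fun a => (a : X k ⧸ H k q 1) with hmk
  have hcl : ((Y.image mk).card : ℝ) ≤ 2 * B ^ 2 * ν := by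
    have hex : ∀ g ∈ Y.image mk, ∃ y, y ∈ Y ∧ mk y = g := fun g hg => by
      obtain ⟨y, hy, h⟩ := Finset.mem_image.1 hg
      exact ⟨y, hy, h⟩
    choose! s hs using hex
    have hsinj : Set.InjOn s (Y.image mk : Set (X k ⧸ H k q 1)) := by
      intro g hg g' hg' h
      rw [← (hs g hg).2, ← (hs g' hg').2, h]
    have e1 : ((Y.image mk).image s).card = (Y.image mk).card := Finset.card_image_of_injOn hsinj
    rw [← e1]
    choose! D hD1 hD2 hD3 using hCar
    refine johnson ((Y.image mk).image s) q D (fun b => phi q b) B ν (k - 1) hB hq.one_lt.le hν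
      ?_ ?_ ?_ hbig
    · intro w hw
      obtain ⟨g, hg, rfl⟩ := Finset.mem_image.1 hw
      exact ⟨hD1 _ (hY _ (hs g hg).1), hD3 _ (hY _ (hs g hg).1)⟩
    · intro b _ Z hZ
      refine h1 Z ?_ ?_
      · intro z hz
        obtain ⟨w, hw, hb, rfl⟩ := hZ z hz
        obtain ⟨g, hg, rfl⟩ := Finset.mem_image.1 hw
        exact hD2 _ (hY _ (hs g hg).1) b hb
      · intro z hz z' hz'
        obtain ⟨w, hw, hb, rfl⟩ := hZ z hz
        obtain ⟨g, hg, rfl⟩ := Finset.mem_image.1 hw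
        obtain ⟨w', hw', hb', rfl⟩ := hZ z' hz'
        obtain ⟨g', hg', rfl⟩ := Finset.mem_image.1 hw'
        rw [← map_sub]
        exact phi_mem hTO hq.one_lt.le (hYd _ (hs g hg).1 _ (hs g' hg').1)
    · intro w hw w' hw' hne S hS
      obtain ⟨g, hg, rfl⟩ := Finset.mem_image.1 hw
      obtain ⟨g', hg', rfl⟩ := Finset.mem_image.1 hw'
      refine few_common hSH hCO hp hq hpq hkq hr (hYd _ (hs g hg).1 _ (hs g' hg').1) ?_ S ?_
      · intro h
        apply hne
        have : mk (s g) = mk (s g') := by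
          rw [hmk]
          refine (QuotientAddGroup.eq).2 ?_
          rw [neg_add_eq_sub]
          have := neg_mem h
          rwa [neg_sub] at this
        rw [(hs g hg).2, (hs g' hg').2] at this
        rw [this]
      · intro b hb
        refine ⟨(hS b hb).1, ?_⟩
        rw [map_sub, sub_eq_zero]
        exact (hS b hb).2
  have hfib : (Y.card : ℝ) ≤ (Y.image mk).card * F := by
    have e1 : (Y.card : ℝ) = ∑ g ∈ Y.image mk, ((Y.filter (fun y => mk y = g)).card : ℝ) := by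
      exact_mod_cast Finset.card_eq_sum_card_image mk Y
    rw [e1, ← nsmul_eq_mul, ← Finset.sum_const]
    refine Finset.sum_le_sum (fun g _ => hCnt _ ?_ ?_)
    · intro y hy
      exact hY y (mem_filter.1 hy).1
    · intro y hy y' hy'
      have e2 : mk y = mk y' := by rw [(mem_filter.1 hy).2, (mem_filter.1 hy').2]
      have e3 := (QuotientAddGroup.eq).1 e2
      have := neg_mem e3
      rwa [neg_add_rev, neg_neg, add_comm, ← sub_eq_add_neg] at this
  refine le_trans hfib (le_trans (mul_le_mul_of_nonneg_right hcl hF0.le) (le_of_eq ?_))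
  ring

theorem pf_JP (hTO : T_TO) (hSH : T_SH) (hCO : L_CO) : L_JP := by
  intro k hk
  refine ⟨2 ^ (k + 2) * k, ?_, ?_⟩
  · have h1 : (1 : ℝ) ≤ 2 ^ (k + 2) := one_le_pow₀ (by norm_num)
    have h2 : (1 : ℝ) ≤ k := by exact_mod_cast (by omega : 1 ≤ k)
    exact one_le_mul_of_one_le_of_one_le h1 h2
  intro p q hp hq hpq hkq W B F G hB hF hG hCar hCnt hG2 hbig
  have hB0 : 0 < B := by linarith
  have hF0 : 0 < F := by linarith
  have hG0 : 0 < G := by linarith
  have hk0 : (0 : ℝ) < k := by exact_mod_cast (by omega : 0 < k)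
  have hBF : 1 ≤ 2 * B ^ 2 * F := by
    have : 1 ≤ B ^ 2 := one_le_pow₀ hB
    nlinarith
  have key : ∀ r ≤ k, Cnt (H k p k ⊔ H k q r) (W (k - r)) ((2 * B ^ 2 * F) ^ r * G) := by
    intro r
    induction r with
    | zero =>
      intro _
      rw [pow_zero, one_mul, Nat.sub_zero]
      intro Y hY hYd
      refine hG2 Y hY (fun y hy y' hy' => ?_)
      obtain ⟨u, h1, v, h2, h3⟩ := AddSubgroup.mem_sup.1 (hYd y hy y' hy')
      rw [mem_H, pow_zero, one_nsmul] at h2
      rw [h2, add_zero] at h3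
      rw [← h3]
      exact h1
    | succ r ih =>
      intro hr
      have h1 := ih (by omega)
      have e1 : k - r = k - (r + 1) + 1 := by omega
      rw [e1] at h1
      have h2 := jp_step hTO hSH hCO hp hq hpq hkq hr hB hF (by positivity)
        (hCar (k - (r + 1)) (by omega)) (hCnt (k - (r + 1)) (by omega)) h1 ?_
      · have e2 : (2 * B ^ 2 * F) ^ (r + 1) * G = 2 * B ^ 2 * F * ((2 * B ^ 2 * F) ^ r * G) := by
          ring
        rw [e2]
        exact h2
      · refine le_trans ?_ hbig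
        have e3 : (((k - 1 : ℕ)) : ℝ) ≤ k := by exact_mod_cast Nat.sub_le k 1
        have e4 : (2 * B ^ 2 * F) ^ r ≤ (2 * B ^ 2 * F) ^ k :=
          pow_le_pow_right₀ hBF (by omega)
        have e5 : (2 * B ^ 2 * F) ^ k = 2 ^ k * B ^ (2 * k) * F ^ k := by
          rw [mul_pow, mul_pow, ← pow_mul]
        calc 2 * (((k - 1 : ℕ)) : ℝ) * B ^ 2 * ((2 * B ^ 2 * F) ^ r * G)
            ≤ 2 * (k : ℝ) * B ^ 2 * ((2 * B ^ 2 * F) ^ k * G) := by
              gcongr
          _ = 2 ^ (k + 1) * k * (B ^ (2 * k + 2) * F ^ k * G) := by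
              rw [e5]; ring
          _ ≤ 2 ^ (k + 2) * k * (B ^ (2 * k + 2) * F ^ k * G) := by
              have : (2 : ℝ) ^ (k + 1) ≤ 2 ^ (k + 2) :=
                pow_le_pow_right₀ (by norm_num) (by omega)
              gcongr
  have h0 := key k le_rfl
  rw [Nat.sub_self] at h0
  intro Y hY hYd
  refine le_trans (h0 Y hY hYd) ?_
  have e5 : (2 * B ^ 2 * F) ^ k * G = 2 ^ k * (B ^ (2 * k) * F ^ k * G) := by
    rw [mul_pow, mul_pow, ← pow_mul]
    ring
  rw [e5]
  refine mul_le_mul_of_nonneg_right ?_ (by positivity)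
  have h1 : (2 : ℝ) ^ k ≤ 2 ^ (k + 2) := pow_le_pow_right₀ (by norm_num) (by omega)
  have h2 : (1 : ℝ) ≤ k := by exact_mod_cast (by omega : 1 ≤ k)
  calc (2 : ℝ) ^ k ≤ 2 ^ (k + 2) := h1
    _ = 2 ^ (k + 2) * 1 := by ring
    _ ≤ 2 ^ (k + 2) * k := mul_le_mul_of_nonneg_left h2 (by positivity)

end Pool.Agent.H84.LVP
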