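import Pool.Agent.H84.LVP.RM

/-!
# Row RI of lvp_modules: stars which are not rich are rare
-/

set_option autoImplicit false

open Finset MeasureTheory

namespace Pool.Agent.H84.LVP

open Pool.Agent.H24.CL Pool.Agent.H24.LV

/-! ### The mass -/

theorem mass_mono {k D : ℕ} {T T' : X k → ℕ → Prop} (h : ∀ x < D, ∀ b, T b x → T' b x) :
    mass k D T ≤ mass k D T' := by
  unfold mass
  refine mul_le_mul_of_nonneg_left (mul_le_mul_of_nonneg_left ?_ (by positivity)) (by positivity)
  refine Finset.sum_le_sum (fun x hx => measureReal_mono (fun b hb => ?_))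
  exact h x (mem_range.1 hx) b hb

theorem mass_nonneg {k D : ℕ} {T : X k → ℕ → Prop} : 0 ≤ mass k D T := by
  unfold mass
  have : 0 ≤ ∑ x ∈ range D, volume.real {b : X k | T b x} :=
    Finset.sum_nonneg (fun _ _ => measureReal_nonneg)
  positivity

theorem mass_or {k D : ℕ} {T T1 T2 : X k → ℕ → Prop}
    (h : ∀ x < D, ∀ b, T b x → T1 b x ∨ T2 b x) :
    mass k D T ≤ mass k D T1 + mass k D T2 := by
  unfold mass
  rw [← mul_add, ← mul_add, ← Finset.sum_add_distrib]
  refine mul_le_mul_of_nonneg_left (mul_le_mul_of_nonneg_left ?_ (by positivity)) (by positivity)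
  refine Finset.sum_le_sum (fun x hx => ?_)
  refine le_trans (measureReal_mono (s₂ := {b | T1 b x} ∪ {b | T2 b x}) (fun b hb => ?_))
    (measureReal_union_le _ _)
  exact h x (mem_range.1 hx) b hb

theorem mass_ex {k D : ℕ} {ι : Type} (F : Finset ι) {T : X k → ℕ → Prop}
    {U : ι → X k → ℕ → Prop} (h : ∀ x < D, ∀ b, T b x → ∃ s ∈ F, U s b x) :
    mass k D T ≤ ∑ s ∈ F, mass k D (U s) := by
  unfold mass
  rw [← Finset.mul_sum, ← Finset.mul_sum, Finset.sum_comm]
  refine mul_le_mul_of_nonneg_left (mul_le_mul_of_nonneg_left ?_ (by positivity)) (by positivity)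
  refine Finset.sum_le_sum (fun x hx => ?_)
  refine le_trans (measureReal_mono (s₂ := ⋃ s ∈ F, {b | U s b x}) (fun b hb => ?_)
    (measure_ne_top _ _)) (measureReal_biUnion_finset_le _ _)
  obtain ⟨s, hs, hb'⟩ := h x (mem_range.1 hx) b hb
  exact Set.mem_biUnion hs hb'

/-! ### Arithmetic of the products -/

theorem DS_insert {S : Finset ℕ} {q : ℕ} (hq : q ∉ S) : DS (insert q S) = q * DS S := by
  unfold DS
  rw [Finset.prod_insert hq]

theorem DS_dvd {S' S : Finset ℕ} (h : S' ⊆ S) : DS S' ∣ DS S :=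
  Finset.prod_dvd_prod_of_subset _ _ _ h

theorem dvd_DS {S : Finset ℕ} {p : ℕ} (h : p ∈ S) : p ∣ DS S := Finset.dvd_prod_of_mem _ h

theorem DS_pos {S : Finset ℕ} (h : ∀ p ∈ S, p.Prime) : 1 ≤ DS S :=
  Finset.prod_pos (fun p hp => (h p hp).pos)

theorem DS_div {S' S : Finset ℕ} {q : ℕ} (hq : q ∉ S) (h : S' ⊆ S) :
    DS (insert q S) / DS S' = q * (DS S / DS S') := by
  rw [DS_insert hq, Nat.mul_div_assoc _ (DS_dvd h)]

theorem phi_one {k : ℕ} (a : X k) : phi 1 0 a = a := by
  funext i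
  have h1 : phi 1 0 a i = ∑ j : Fin k,
      (Nat.choose (j.val + 1) (i.val + 1) * 0 ^ (j.val - i.val) * 1 ^ (i.val + 1)) • a j := rfl
  rw [h1, Finset.sum_eq_single i]
  · simp
  · intro j _ hj
    have h2 : j.val ≠ i.val := fun h => hj (Fin.ext h)
    rcases lt_or_gt_of_ne h2 with h3 | h3
    · rw [Nat.choose_eq_zero_of_lt (by omega)]
      simp
    · rw [zero_pow (by omega)]
      simp
  · intro h
    exact absurd (mem_univ _) h

/-! ### Data -/

theorem SData.mono {k : ℕ} {S S' : Finset ℕ} {V : Set (X k)} {Gd : ℕ → Set (X k)}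
    {P ν m τ Ω : ℝ} (h : SData k S V Gd P ν m τ Ω) (hs : S' ⊆ S) :
    SData k S' V Gd P ν m τ Ω where
  hk := h.hk
  hP := h.hP
  hν := h.hν
  hm := h.hm
  hτ := h.hτ
  hτ1 := h.hτ1
  hΩ := h.hΩ
  pr p hp := h.pr p (hs hp)
  mV := h.mV
  mG p hp := h.mG p (hs hp)
  inv p hp := h.inv p (hs hp)
  den p hp := h.den p (hs hp)
  fib p hp := h.fib p (hs hp)
  fib2 p hp q hq := h.fib2 p (hs hp) q (hs hq)
  ms p hp := h.ms p (hs hp)

theorem meas_Star {k : ℕ} (hMP : T_MP) {S : Finset ℕ} {V : Set (X k)} {Gd : ℕ → Set (X k)}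
    (hS : ∀ p ∈ S, p.Prime) (hV : MeasurableSet V) (hG : ∀ p ∈ S, MeasurableSet (Gd p)) (x : ℕ) :
    MeasurableSet {b : X k | Star S V Gd b x} := by
  have h1 : MeasurableSet {b : X k | phi (DS S) x b ∈ V} :=
    (hMP k (DS S) x (DS_pos hS)).1.measurable hV
  have h2 : MeasurableSet {b : X k | ∀ p ∈ S, phi (DS S / p) (x % (DS S / p)) b ∈ Gd p} := by
    have : {b : X k | ∀ p ∈ S, phi (DS S / p) (x % (DS S / p)) b ∈ Gd p} =
        ⋂ p ∈ S, {b : X k | phi (DS S / p) (x % (DS S / p)) b ∈ Gd p} := by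
      ext b
      simp
    rw [this]
    refine Finset.measurableSet_biInter _ (fun p hp => ?_)
    exact (hMP k (DS S / p) _ (Nat.div_pos (Nat.le_of_dvd (DS_pos hS) (dvd_DS hp))
      (hS p hp).pos)).1.measurable (hG p hp)
  exact h1.inter h2

theorem meas_hd {k : ℕ} (hMP : T_MP) {D : ℕ} (hD : 1 ≤ D) {V : Set (X k)}
    (hV : MeasurableSet V) : Measurable (fun b : X k => hd D V b) := by
  unfold hd
  exact (meas_pos hMP hD hV).div_const _

/-- the sub-star of a star -/
theorem star_sub {k : ℕ} (hCO : L_CO) {S : Finset ℕ} {q : ℕ} (hq : q ∉ S) {V : Set (X k)}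
    {Gd : ℕ → Set (X k)} (hqp : 1 ≤ q) {b : X k} {x : ℕ}
    (h : Star (insert q S) V Gd b x) :
    Star S V Gd (phi q (x % q) b) (x / q) ∧ phi (DS S) (x % DS S) b ∈ Gd q := by
  refine ⟨⟨?_, fun p hp => ?_⟩, ?_⟩
  · rw [hCO.1, Nat.mul_comm (DS S) q, ← DS_insert hq, Nat.mod_add_div]
    exact h.1
  · have h1 := h.2 p (Finset.mem_insert_of_mem hp)
    have e1 : DS (insert q S) / p = q * (DS S / p) := by
      rw [DS_insert hq, Nat.mul_div_assoc _ (dvd_DS hp)]
    rw [e1] at h1
    rw [hCO.1, Nat.mul_comm (DS S / p) q, ← Nat.mod_mul]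
    exact h1
  · have h1 := h.2 q (Finset.mem_insert_self q S)
    have e1 : DS (insert q S) / q = DS S := by
      rw [DS_insert hq, Nat.mul_div_cancel_left _ hqp]
    rwa [e1] at h1

/-- restriction of stars to a subset of the primes -/
theorem tr_it {k : ℕ} (hMP : T_MP) (hCO : L_CO) (hTR : L_TR) {S' : Finset ℕ} {V : Set (X k)}
    {Gd : ℕ → Set (X k)} {P ν m τ Ω : ℝ} {T : X k → ℕ → Prop}
    (hT : ∀ x, MeasurableSet {b : X k | T b x}) (U : Finset ℕ) (hU : Disjoint S' U)
    (h : SData k (S' ∪ U) V Gd P ν m τ Ω) :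
    mass k (DS (S' ∪ U)) (fun b x => Star (S' ∪ U) V Gd b x ∧
        T (phi (DS (S' ∪ U) / DS S') (x % (DS (S' ∪ U) / DS S')) b)
          (x / (DS (S' ∪ U) / DS S'))) ≤ ν ^ U.card * mass k (DS S') T := by
  induction U using Finset.induction_on with
  | empty =>
    have hp : ∀ p ∈ S', p.Prime := fun p hp => (h.pr p (Finset.mem_union_left _ hp)).1
    rw [Finset.union_empty, Finset.card_empty, pow_zero, one_mul, Nat.div_self (DS_pos hp)]
    refine mass_mono (fun x _ b hb => ?_)
    have := hb.2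
    rwa [Nat.mod_one, phi_one, Nat.div_one] at this
  | insert q U hqU ih =>
    have hqS : q ∉ S' := fun hh => (Finset.disjoint_left.1 hU hh) (Finset.mem_insert_self _ _)
    have hdis : Disjoint S' U := Finset.disjoint_of_subset_right (Finset.subset_insert _ _) hU
    have hq1 : q ∉ S' ∪ U := by
      rw [Finset.mem_union]
      exact fun hh => hh.elim hqS hqU
    have hun : S' ∪ insert q U = insert q (S' ∪ U) := Finset.union_insert _ _ _
    rw [hun] at h ⊢
    have h1 : SData k (S' ∪ U) V Gd P ν m τ Ω := SData.mono h (Finset.subset_insert _ _)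
    have hpr : ∀ p ∈ S' ∪ U, p.Prime := fun p hp => (h1.pr p hp).1
    have ih' := ih hdis h1
    have hqp : 1 ≤ q := (h.pr q (Finset.mem_insert_self _ _)).1.one_lt.le
    set E := DS (S' ∪ U) / DS S' with hE
    have hEpos : 1 ≤ E := Nat.div_pos (Nat.le_of_dvd (DS_pos hpr) (DS_dvd
      Finset.subset_union_left)) (DS_pos (fun p hp => hpr p (Finset.mem_union_left _ hp)))
    have hdiv : DS (insert q (S' ∪ U)) / DS S' = q * E := DS_div hq1 Finset.subset_union_left
    rw [hdiv]
    have htr := hTR k (S' ∪ U) V Gd P ν m τ Ω q hq1 h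
      (fun b x => Star (S' ∪ U) V Gd b x ∧ T (phi E (x % E) b) (x / E)) ?_
    · refine le_trans (le_trans (mass_mono (fun x _ b hb => ?_)) htr) ?_
      · obtain ⟨h2, h3⟩ := star_sub hCO hq1 hqp hb.1
        refine ⟨⟨h2, ?_⟩, h3⟩
        rw [hCO.1, Nat.mul_comm E q, ← Nat.mod_mul, Nat.div_div_eq_div_mul]
        exact hb.2
      · rw [Finset.card_insert_of_notMem hqU, pow_succ']
        have hν : 0 ≤ ν := by linarith [h.hν]
        rw [mul_assoc]
        exact mul_le_mul_of_nonneg_left ih' hν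
    · intro x
      refine (meas_Star hMP hpr h1.mV h1.mG x).inter ?_
      exact (hMP k E (x % E) hEpos).1.measurable (hT (x / E))

/-- the poor stars -/
def Poor {k : ℕ} (S : Finset ℕ) (V : Set (X k)) (Gd : ℕ → Set (X k)) (c : ℝ) (b : X k) (x : ℕ) :
    Prop := Star S V Gd b x ∧ hd (DS S) V b < c

theorem poor_bound {k : ℕ} (hMP : T_MP) (hCO : L_CO) (hTR : L_TR) (hNL : L_NL)
    {V : Set (X k)} {Gd : ℕ → Set (X k)} {P ν m τ Ω kap' L : ℝ} (hL : 0 ≤ L)
    (hkap0 : 0 < kap') {S0 : Finset ℕ}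
    (hLM : ∀ (S : Finset ℕ) (q : ℕ), q ∉ S → insert q S ⊆ S0 →
      mass k (DS (insert q S)) (fun b x => Lonely S q V Gd kap' b x) ≤ L)
    (S : Finset ℕ) (hS : S ⊆ S0) (h : SData k S V Gd P ν m τ Ω) :
    mass k (DS S) (Poor S V Gd (kap' ^ S.card * τ)) ≤ S.card * ν ^ S.card * L := by
  induction S using Finset.induction_on with
  | empty =>
    rw [Finset.card_empty]
    have h0 : mass k (DS ∅) (Poor ∅ V Gd (kap' ^ 0 * τ)) ≤
        mass k (DS ∅) (fun (_ : X k) (_ : ℕ) => False) := by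
      refine mass_mono (fun x hx b hb => ?_)
      have e1 : DS ∅ = 1 := by unfold DS; exact Finset.prod_empty
      rw [e1] at hx
      have hx0 : x = 0 := by omega
      obtain ⟨h1, h2⟩ := hb
      have h3 := h1.1
      rw [e1] at h2 h3
      rw [hx0, phi_one] at h3
      have h4 : hd 1 V b = 1 := by
        unfold hd
        have e2 : pos 1 V b = {0} := by
          ext c
          rw [mem_pos, Finset.mem_singleton]
          constructor
          · intro hc
            have := mem_range.1 hc.1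
            omega
          · rintro rfl
            refine ⟨by simp, ?_⟩
            rw [phi_one]
            exact h3
        rw [e2]
        simp
      rw [h4, pow_zero, one_mul] at h2
      linarith [h.hτ1]
    refine le_trans h0 (le_of_eq ?_)
    unfold mass
    simp
  | insert q S hq ih =>
    have h1 : SData k S V Gd P ν m τ Ω := SData.mono h (Finset.subset_insert _ _)
    have ih' := ih (le_trans (Finset.subset_insert _ _) hS) h1
    have hpr : ∀ p ∈ S, p.Prime := fun p hp => (h1.pr p hp).1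
    have hqp : 1 ≤ q := (h.pr q (Finset.mem_insert_self _ _)).1.one_lt.le
    have hν1 : 1 ≤ ν := h.hν
    have hor : mass k (DS (insert q S)) (Poor (insert q S) V Gd
        (kap' ^ (insert q S).card * τ)) ≤
        mass k (DS (insert q S)) (fun b x => Poor S V Gd (kap' ^ S.card * τ) (phi q (x % q) b)
          (x / q) ∧ phi (DS S) (x % DS S) b ∈ Gd q) +
        mass k (DS (insert q S)) (fun b x => Lonely S q V Gd kap' b x) := by
      refine mass_or (fun x hx b hb => ?_)
      by_cases hlo : Lonely S q V Gd kap' b x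
      · exact Or.inr hlo
      · refine Or.inl ?_
        obtain ⟨h2, h3⟩ := star_sub hCO hq hqp hb.1
        refine ⟨⟨h2, ?_⟩, h3⟩
        have h4 := hNL k S V Gd P ν m τ Ω kap' q hq h b x hx hb.1 hlo
        have h5 := hb.2
        rw [Finset.card_insert_of_notMem hq, pow_succ', mul_assoc] at h5
        exact lt_of_mul_lt_mul_left (lt_of_le_of_lt h4 h5) hkap0.le
    have htr := hTR k S V Gd P ν m τ Ω q hq h (Poor S V Gd (kap' ^ S.card * τ)) (fun x =>
      (meas_Star hMP hpr h1.mV h1.mG x).inter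
        (measurableSet_lt (meas_hd hMP (DS_pos hpr) h1.mV) measurable_const))
    have hlo := hLM S q hq hS
    have hν0 : 0 ≤ ν := by linarith
    rw [Finset.card_insert_of_notMem hq]
    have h6 : ν * mass k (DS S) (Poor S V Gd (kap' ^ S.card * τ)) ≤
        ν * (S.card * ν ^ S.card * L) := mul_le_mul_of_nonneg_left ih' hν0
    have h7 : L ≤ ν ^ (S.card + 1) * L := le_mul_of_one_le_left hL (one_le_pow₀ hν1)
    have h8 : ((S.card + 1 : ℕ) : ℝ) * ν ^ (S.card + 1) * L =
        ν * (S.card * ν ^ S.card * L) + ν ^ (S.card + 1) * L := by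
      push_cast
      ring
    rw [h8]
    rw [Finset.card_insert_of_notMem hq] at hor
    linarith

theorem pf_RI (hMP : T_MP) (hLM : L_LM) (hNL : L_NL) (hTR : L_TR) (hCO : L_CO) : L_RI := by
  intro k hk n
  obtain ⟨C, hC, hLM⟩ := hLM k hk
  have hn0 : (0 : ℝ) ≤ n := Nat.cast_nonneg n
  refine ⟨2 ^ n * (n * (n * C + n + 2 ^ n)) + 1, ?_, ?_⟩
  · have : (0 : ℝ) ≤ 2 ^ n * (n * (n * C + n + 2 ^ n)) := by positivity
    linarith
  intro S V Gd P ν m τ Ω kap kap' hSn h hkap hkap1 hP hkap' hkap'1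
  have hν1 : 1 ≤ ν := h.hν
  have hν0 : 0 < ν := by linarith
  have hm0 : 0 < m := by linarith [h.hm]
  have hP0 : 0 < P := by linarith [h.hP]
  have hτ0 := h.hτ
  have hΩ := h.hΩ
  have hνk : 1 ≤ ν / kap := by
    rw [le_div_iff₀ hkap]
    linarith
  set Z : ℝ := m ^ 3 / (kap ^ 3 * P) + kap + kap' * (ν / kap) ^ n with hZ
  have hZ1 : m ^ 3 / (kap ^ 3 * P) ≤ Z := by
    have : 0 ≤ kap + kap' * (ν / kap) ^ n := by positivity
    rw [hZ]; linarith
  have hZ2 : kap ≤ Z := by
    have h1 : 0 ≤ m ^ 3 / (kap ^ 3 * P) := by positivity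
    have h2 : 0 ≤ kap' * (ν / kap) ^ n := by positivity
    rw [hZ]; linarith
  have hZ3 : kap' * (ν / kap) ^ n ≤ Z := by
    have h1 : 0 ≤ m ^ 3 / (kap ^ 3 * P) := by positivity
    rw [hZ]; linarith
  have hZ0 : 0 < Z := lt_of_lt_of_le hkap hZ2
  set L : ℝ := (n * C + n + 2 ^ n) * ν ^ n * Z * Ω with hL
  have hL0 : 0 ≤ L := by positivity
  have hlone : ∀ (S1 : Finset ℕ) (q : ℕ), q ∉ S1 → insert q S1 ⊆ S →
      mass k (DS (insert q S1)) (fun b x => Lonely S1 q V Gd kap' b x) ≤ L := by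
    intro S1 q hq hs
    refine le_trans (hLM S1 V Gd P ν m τ Ω kap kap' q hq (SData.mono h hs) hkap hkap1 hP hkap') ?_
    have hr : S1.card ≤ n := by
      rw [← hSn]
      exact Finset.card_le_card (le_trans (Finset.subset_insert _ _) hs)
    have hr' : (S1.card : ℝ) ≤ n := by exact_mod_cast hr
    have e1 : ν ^ S1.card ≤ ν ^ n := pow_le_pow_right₀ hν1 hr
    have e2 : kap' * (2 * ν / kap) ^ S1.card ≤ 2 ^ n * Z := by
      have e3 : (2 * ν / kap) ^ S1.card = 2 ^ S1.card * (ν / kap) ^ S1.card := by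
        rw [← mul_pow]; congr 1; ring
      rw [e3]
      have e4 : (2 : ℝ) ^ S1.card ≤ 2 ^ n := pow_le_pow_right₀ (by norm_num) hr
      have e5 : (ν / kap) ^ S1.card ≤ (ν / kap) ^ n := pow_le_pow_right₀ hνk hr
      calc kap' * (2 ^ S1.card * (ν / kap) ^ S1.card)
          ≤ kap' * (2 ^ n * (ν / kap) ^ n) := by gcongr
        _ = 2 ^ n * (kap' * (ν / kap) ^ n) := by ring
        _ ≤ 2 ^ n * Z := mul_le_mul_of_nonneg_left hZ3 (by positivity)
    rw [hL]
    refine mul_le_mul_of_nonneg_right ?_ hΩ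
    have e6 : (S1.card : ℝ) * ν ^ S1.card ≤ n * ν ^ n := by gcongr
    have e7 : C * m ^ 3 / (kap ^ 3 * P) ≤ C * Z := by
      rw [mul_div_assoc]
      exact mul_le_mul_of_nonneg_left hZ1 (by linarith)
    have e8 : (S1.card : ℝ) * ν ^ S1.card * (C * m ^ 3 / (kap ^ 3 * P)) ≤ n * ν ^ n * (C * Z) := by
      have : 0 ≤ C * m ^ 3 / (kap ^ 3 * P) := by positivity
      gcongr
    have e9 : (S1.card : ℝ) * ν ^ S1.card * kap ≤ n * ν ^ n * Z := by gcongr
    have e10 : 2 ^ n * Z ≤ 2 ^ n * ν ^ n * Z := by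
      have : (1 : ℝ) ≤ ν ^ n := one_le_pow₀ hν1
      have h2 : (0 : ℝ) ≤ 2 ^ n * Z := by positivity
      nlinarith
    calc (S1.card : ℝ) * ν ^ S1.card * (C * m ^ 3 / (kap ^ 3 * P)) +
          S1.card * ν ^ S1.card * kap + kap' * (2 * ν / kap) ^ S1.card
        ≤ n * ν ^ n * (C * Z) + n * ν ^ n * Z + 2 ^ n * ν ^ n * Z := by linarith
      _ = (n * C + n + 2 ^ n) * ν ^ n * Z := by ring
  have hmain : mass k (DS S) (fun b x => Star S V Gd b x ∧ ¬ Rich S V (kap' ^ n * τ) b x) ≤
      ∑ S' ∈ S.powerset, mass k (DS S) (fun b x => Star S V Gd b x ∧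
        Poor S' V Gd (kap' ^ S'.card * τ) (phi (DS S / DS S') (x % (DS S / DS S')) b)
          (x / (DS S / DS S'))) := by
    refine mass_ex _ (fun x hx b hb => ?_)
    obtain ⟨hst, hnr⟩ := hb
    unfold Rich at hnr
    push Not at hnr
    obtain ⟨S', hS', hlt⟩ := hnr
    refine ⟨S', Finset.mem_powerset.2 hS', hst, ?_, ?_⟩
    · -- the sub-star
      have hgen : ∀ U : Finset ℕ, Disjoint S' U → SData k (S' ∪ U) V Gd P ν m τ Ω → ∀ (b : X k)
          (x : ℕ), Star (S' ∪ U) V Gd b x → Star S' V Gd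
            (phi (DS (S' ∪ U) / DS S') (x % (DS (S' ∪ U) / DS S')) b)
            (x / (DS (S' ∪ U) / DS S')) := by
        intro U
        induction U using Finset.induction_on with
        | empty =>
          intro _ h b x hb
          have hp : ∀ p ∈ S', p.Prime := fun p hp => (h.pr p (Finset.mem_union_left _ hp)).1
          rw [Finset.union_empty] at hb ⊢
          rwa [Nat.div_self (DS_pos hp), Nat.mod_one, phi_one, Nat.div_one]
        | insert q U hqU ih =>
          intro hU h b x hb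
          have hqS : q ∉ S' :=
            fun hh => (Finset.disjoint_left.1 hU hh) (Finset.mem_insert_self _ _)
          have hdis : Disjoint S' U :=
            Finset.disjoint_of_subset_right (Finset.subset_insert _ _) hU
          have hq1 : q ∉ S' ∪ U := by
            rw [Finset.mem_union]
            exact fun hh => hh.elim hqS hqU
          have hun : S' ∪ insert q U = insert q (S' ∪ U) := Finset.union_insert _ _ _
          rw [hun] at h hb ⊢
          have hqp : 1 ≤ q := (h.pr q (Finset.mem_insert_self _ _)).1.one_lt.le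
          have h3 := ih hdis (SData.mono h (Finset.subset_insert _ _)) _ _
            (star_sub hCO hq1 hqp hb).1
          rw [DS_div hq1 Finset.subset_union_left]
          rw [hCO.1, Nat.mul_comm _ q, ← Nat.mod_mul, Nat.div_div_eq_div_mul] at h3
          exact h3
      have h5 := hgen (S \ S') Finset.disjoint_sdiff
        (by rw [Finset.union_sdiff_of_subset hS']; exact h) b x
        (by rw [Finset.union_sdiff_of_subset hS']; exact hst)
      rwa [Finset.union_sdiff_of_subset hS'] at h5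
    · refine lt_of_lt_of_le hlt (mul_le_mul_of_nonneg_right ?_ hτ0.le)
      refine pow_le_pow_of_le_one hkap'.le hkap'1 ?_
      rw [← hSn]
      exact Finset.card_le_card hS'
  have hterm : ∀ S' ∈ S.powerset, mass k (DS S) (fun b x => Star S V Gd b x ∧
        Poor S' V Gd (kap' ^ S'.card * τ) (phi (DS S / DS S') (x % (DS S / DS S')) b)
          (x / (DS S / DS S'))) ≤ n * ν ^ n * L := by
    intro S' hS'
    have hS' := Finset.mem_powerset.1 hS'
    have h' : SData k S' V Gd P ν m τ Ω := SData.mono h hS'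
    have hpr' : ∀ p ∈ S', p.Prime := fun p hp => (h'.pr p hp).1
    have h1 := tr_it hMP hCO hTR (S' := S') (V := V) (Gd := Gd) (P := P) (ν := ν) (m := m)
      (τ := τ) (Ω := Ω) (T := Poor S' V Gd (kap' ^ S'.card * τ)) (fun x =>
      (meas_Star hMP hpr' h'.mV h'.mG x).inter
        (measurableSet_lt (meas_hd hMP (DS_pos hpr') h'.mV) measurable_const)) (S \ S')
      Finset.disjoint_sdiff (by rw [Finset.union_sdiff_of_subset hS']; exact h)
    rw [Finset.union_sdiff_of_subset hS'] at h1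
    refine le_trans h1 ?_
    have h2 := poor_bound hMP hCO hTR hNL hL0 hkap' hlone S' hS' h'
    have hc : (S \ S').card + S'.card = n := by
      rw [Finset.card_sdiff_add_card_eq_card hS', hSn]
    have hr' : (S'.card : ℝ) ≤ n := by
      exact_mod_cast (by omega : S'.card ≤ n)
    calc ν ^ (S \ S').card * mass k (DS S') (Poor S' V Gd (kap' ^ S'.card * τ))
        ≤ ν ^ (S \ S').card * (S'.card * ν ^ S'.card * L) :=
          mul_le_mul_of_nonneg_left h2 (by positivity)
      _ = S'.card * ν ^ ((S \ S').card + S'.card) * L := by rw [pow_add]; ring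
      _ = S'.card * ν ^ n * L := by rw [hc]
      _ ≤ n * ν ^ n * L := by gcongr
  refine le_trans hmain (le_trans (Finset.sum_le_sum hterm) ?_)
  rw [Finset.sum_const, Finset.card_powerset, nsmul_eq_mul, hSn, hL]
  have e1 : ((2 ^ n : ℕ) : ℝ) * (n * ν ^ n * ((n * C + n + 2 ^ n) * ν ^ n * Z * Ω)) =
      2 ^ n * (n * (n * C + n + 2 ^ n)) * ν ^ (2 * n) * Z * Ω := by
    push_cast
    ring
  rw [e1]
  have h3 : 0 ≤ ν ^ (2 * n) * Z * Ω := by positivity
  nlinarith

end Pool.Agent.H84.LVP
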