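import Pool.Agent.H24.LV.Targets

/-!
# Row RM of lvp_modules: removing small exceptional sets from a tower
-/

set_option autoImplicit false

open Finset MeasureTheory

namespace Pool.Agent.H84.LVP

open Pool.Agent.H24.CL Pool.Agent.H24.LV

open Classical in
theorem mem_pos {k q : ℕ} {W : Set (X k)} {w : X k} {b : ℕ} :
    b ∈ pos q W w ↔ b ∈ range q ∧ phi q b w ∈ W := by
  unfold pos
  rw [Finset.mem_filter]

open Classical in
theorem meas_pos {k : ℕ} (hMP : T_MP) {q : ℕ} (hq : 1 ≤ q) {V : Set (X k)}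
    (hV : MeasurableSet V) : Measurable (fun w : X k => ((pos q V w).card : ℝ)) := by
  have h1 : (fun w : X k => ((pos q V w).card : ℝ)) =
      fun w => ∑ b ∈ range q, ((phi q b) ⁻¹' V).indicator (fun _ => (1 : ℝ)) w := by
    funext w
    unfold pos
    rw [Finset.card_filter, Nat.cast_sum]
    refine Finset.sum_congr rfl (fun b _ => ?_)
    by_cases h : phi q b w ∈ V
    · rw [if_pos h, Set.indicator_of_mem (by exact h)]
      simp
    · rw [if_neg h, Set.indicator_of_notMem (by exact h)]
      simp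
  rw [h1]
  refine Finset.measurable_sum _ (fun b _ => ?_)
  exact measurable_const.indicator ((hMP k q b hq).1.measurable hV)

/-- the volume of the points of `A` whose child lies in `B` -/
theorem vol_child {k : ℕ} (hMP : T_MP) (hTO : T_TO) (hCO : L_CO) (hAI : L_AI) {q b : ℕ}
    (hq : 1 ≤ q) {A B : Set (X k)} (hA : MeasurableSet A) (hB : MeasurableSet B) {ν : ℝ}
    (_ : 0 ≤ ν) (hc : Cnt (H k q k) A ν) :
    volume.real {w : X k | w ∈ A ∧ phi q b w ∈ B} ≤ ν / (q : ℝ) ^ (KN k) * volume.real B := by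
  classical
  have hmp := hMP k q b hq
  have hS : MeasurableSet {w : X k | w ∈ A ∧ phi q b w ∈ B} :=
    hA.inter (hmp.1.measurable hB)
  have hKr := hCO.2.2.2.1 k q b hq
  have hKne : (Kr k q b).Nonempty := by
    rw [← Finset.card_pos, hKr.1]
    positivity
  set F : X k → ℝ := {w : X k | w ∈ A ∧ phi q b w ∈ B}.indicator (fun _ => (1 : ℝ)) with hF
  have hFm : Measurable F := measurable_const.indicator hS
  have hFb : ∀ a, |F a| ≤ 1 := by
    intro a
    rw [hF]
    by_cases h : a ∈ {w : X k | w ∈ A ∧ phi q b w ∈ B}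
    · rw [Set.indicator_of_mem h]; simp
    · rw [Set.indicator_of_notMem h]; simp
  have h1 : ∫ a, F a = volume.real {w : X k | w ∈ A ∧ phi q b w ∈ B} := by
    rw [hF, integral_indicator_const _ hS, smul_eq_mul, mul_one]
  have h2 := hAI k (Kr k q b) F 1 hKne hFm hFb
  have h3 : ∀ a : X k, ∑ κ ∈ Kr k q b, F (a + κ) ≤ ν * ((phi q b) ⁻¹' B).indicator
      (fun _ => (1 : ℝ)) a := by
    intro a
    have hker : ∀ κ ∈ Kr k q b, phi q b (a + κ) = phi q b a := by
      intro κ hκ
      rw [map_add, (hKr.2 κ).1 hκ, add_zero]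
    by_cases hb : phi q b a ∈ B
    · rw [Set.indicator_of_mem (by exact hb), mul_one]
      have h4 : ∑ κ ∈ Kr k q b, F (a + κ) = (((Kr k q b).filter (fun κ => a + κ ∈ A)).card : ℝ) := by
        rw [Finset.card_filter, Nat.cast_sum]
        refine Finset.sum_congr rfl (fun κ hκ => ?_)
        by_cases h : a + κ ∈ A
        · rw [if_pos h, hF, Set.indicator_of_mem (by exact ⟨h, by rw [hker κ hκ]; exact hb⟩)]
          simp
        · rw [if_neg h, hF, Set.indicator_of_notMem (fun hh => h hh.1)]
          simp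
      rw [h4]
      have h5 := hc (((Kr k q b).filter (fun κ => a + κ ∈ A)).image (fun κ => a + κ)) ?_ ?_
      · rwa [Finset.card_image_of_injective _ (add_right_injective a)] at h5
      · intro y hy
        obtain ⟨κ, hκ, rfl⟩ := Finset.mem_image.1 hy
        exact (Finset.mem_filter.1 hκ).2
      · intro y hy y' hy'
        obtain ⟨κ, hκ, rfl⟩ := Finset.mem_image.1 hy
        obtain ⟨κ', hκ', rfl⟩ := Finset.mem_image.1 hy'
        rw [add_sub_add_left_eq_sub]
        have e1 : κ ∈ H k q k := ((hTO k q hq).2.1 k κ).1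
          (Finset.mem_filter.1 (Finset.mem_filter.1 hκ).1).1
        have e2 : κ' ∈ H k q k := ((hTO k q hq).2.1 k κ').1
          (Finset.mem_filter.1 (Finset.mem_filter.1 hκ').1).1
        exact sub_mem e1 e2
    · rw [Set.indicator_of_notMem (by exact hb), mul_zero]
      refine le_of_eq (Finset.sum_eq_zero (fun κ hκ => ?_))
      rw [hF]
      refine Set.indicator_of_notMem (fun hh => hb ?_) _
      have := hh.2
      rwa [hker κ hκ] at this
  have h4 : ∫ a, ∑ κ ∈ Kr k q b, F (a + κ) ≤ ν * volume.real B := by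
    have h5 : ∫ a : X k, ν * ((phi q b) ⁻¹' B).indicator (fun _ => (1 : ℝ)) a =
        ν * volume.real B := by
      rw [integral_const_mul, integral_indicator_const _ (hmp.1.measurable hB), smul_eq_mul,
        mul_one, measureReal_def, hmp.2.2.measure_preimage hB.nullMeasurableSet, ← measureReal_def]
    rw [← h5]
    refine integral_mono ?_ ?_ h3
    · refine integrable_finsetSum _ (fun κ _ => ?_)
      refine Integrable.of_bound (C := 1)
        ((hFm.comp (measurable_id.add_const κ)).aestronglyMeasurable) ?_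
      exact Filter.Eventually.of_forall (fun a => by rw [Real.norm_eq_abs]; exact hFb _)
    · refine Integrable.const_mul ?_ _
      exact (integrable_const _).indicator (hmp.1.measurable hB)
  rw [← h1, h2, hKr.1]
  have hq0 : (0 : ℝ) < (q : ℝ) ^ (KN k) := by positivity
  push_cast
  calc 1 / (q : ℝ) ^ KN k * ∫ a, ∑ κ ∈ Kr k q b, F (a + κ)
      ≤ 1 / (q : ℝ) ^ KN k * (ν * volume.real B) :=
        mul_le_mul_of_nonneg_left h4 (by positivity)
    _ = ν / (q : ℝ) ^ (KN k) * volume.real B := by ring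

/-- the recursion from the top -/
def Vd {k : ℕ} (q m : ℕ) (W E : ℕ → Set (X k)) (n : ℕ → ℝ) : ℕ → Set (X k)
  | 0 => W m \ E m
  | i + 1 => {w | w ∈ W (m - (i + 1)) ∧ w ∉ E (m - (i + 1)) ∧
      n (m - (i + 1)) / 2 ≤ ((pos q (Vd q m W E n i) w).card : ℝ)}

theorem step {k : ℕ} (hMP : T_MP) (hTO : T_TO) (hCO : L_CO) (hAI : L_AI) {q : ℕ} (hq : 1 ≤ q)
    {Wj Ej W1 V1 : Set (X k)} {n ν : ℝ} (hWj : MeasurableSet Wj) (hEj : MeasurableSet Ej)
    (hW1 : MeasurableSet W1) (hV1 : MeasurableSet V1) (hn : 0 < n) (hν : 0 ≤ ν)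
    (hCar : Car q Wj W1 n) (hCnt : Cnt (H k q k) (Wj \ Ej) ν) :
    volume.real (Wj \ {w | w ∈ Wj ∧ w ∉ Ej ∧ n / 2 ≤ ((pos q V1 w).card : ℝ)}) ≤
      volume.real (Wj ∩ Ej) + 2 * q * ν / (n * (q : ℝ) ^ (KN k)) * volume.real (W1 \ V1) := by
  classical
  set R : Set (X k) := {w | w ∈ Wj ∧ w ∉ Ej ∧ ((pos q V1 w).card : ℝ) < n / 2} with hR
  have hRm : MeasurableSet R := by
    have h1 : MeasurableSet {w : X k | ((pos q V1 w).card : ℝ) < n / 2} :=
      measurableSet_lt (meas_pos hMP hq hV1) measurable_const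
    exact hWj.inter (hEj.compl.inter h1)
  have hsub : Wj \ {w | w ∈ Wj ∧ w ∉ Ej ∧ n / 2 ≤ ((pos q V1 w).card : ℝ)} ⊆
      (Wj ∩ Ej) ∪ R := by
    rintro w ⟨h1, h2⟩
    by_cases h3 : w ∈ Ej
    · exact Or.inl ⟨h1, h3⟩
    · refine Or.inr ⟨h1, h3, ?_⟩
      by_contra h4
      exact h2 ⟨h1, h3, not_lt.1 h4⟩
  have h1 : volume.real (Wj \ {w | w ∈ Wj ∧ w ∉ Ej ∧ n / 2 ≤ ((pos q V1 w).card : ℝ)}) ≤
      volume.real (Wj ∩ Ej) + volume.real R :=
    le_trans (measureReal_mono hsub) (measureReal_union_le _ _)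
  have hpt : ∀ w ∈ R, n / 2 ≤ ((pos q (W1 \ V1) w).card : ℝ) := by
    rintro w ⟨hw1, hw2, hw3⟩
    obtain ⟨D, hD1, hD2, hD3⟩ := hCar w hw1
    have h2 : D ⊆ pos q (W1 \ V1) w ∪ pos q V1 w := by
      intro b hb
      rw [Finset.mem_union, mem_pos, mem_pos]
      by_cases h : phi q b w ∈ V1
      · exact Or.inr ⟨hD1 hb, h⟩
      · exact Or.inl ⟨hD1 hb, hD2 b hb, h⟩
    have h3 : (D.card : ℝ) ≤ (pos q (W1 \ V1) w).card + (pos q V1 w).card := by
      exact_mod_cast le_trans (Finset.card_le_card h2) (Finset.card_union_le _ _)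
    linarith
  have hms : ∀ b, MeasurableSet {w : X k | w ∈ R ∧ phi q b w ∈ W1 \ V1} := fun b =>
    hRm.inter ((hMP k q b hq).1.measurable (hW1.diff hV1))
  have hint : n / 2 * volume.real R ≤ ∑ b ∈ range q,
      volume.real {w : X k | w ∈ R ∧ phi q b w ∈ W1 \ V1} := by
    have e1 : n / 2 * volume.real R = ∫ w : X k, R.indicator (fun _ => n / 2) w := by
      rw [integral_indicator_const _ hRm, smul_eq_mul, mul_comm]
    have e2 : ∀ b ∈ range q, volume.real {w : X k | w ∈ R ∧ phi q b w ∈ W1 \ V1} =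
        ∫ w : X k, {w : X k | w ∈ R ∧ phi q b w ∈ W1 \ V1}.indicator (fun _ => (1 : ℝ)) w := by
      intro b _
      rw [integral_indicator_const _ (hms b), smul_eq_mul, mul_one]
    rw [e1, Finset.sum_congr rfl e2, ← integral_finsetSum]
    · refine integral_mono ((integrable_const _).indicator hRm)
        (integrable_finsetSum _ (fun b _ => (integrable_const _).indicator (hms b)))
        (fun w => ?_)
      by_cases hw : w ∈ R
      · rw [Set.indicator_of_mem hw]
        refine le_trans (hpt w hw) (le_of_eq ?_)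
        unfold pos
        rw [Finset.card_filter, Nat.cast_sum]
        refine Finset.sum_congr rfl (fun b _ => ?_)
        by_cases h : phi q b w ∈ W1 \ V1
        · rw [if_pos h, Set.indicator_of_mem (by exact ⟨hw, h⟩)]; simp
        · rw [if_neg h, Set.indicator_of_notMem (fun hh => h hh.2)]; simp
      · rw [Set.indicator_of_notMem hw]
        exact Finset.sum_nonneg (fun b _ => Set.indicator_nonneg (fun _ _ => zero_le_one) _)
    · intro b _
      exact (integrable_const _).indicator (hms b)
  have hch : ∀ b ∈ range q, volume.real {w : X k | w ∈ R ∧ phi q b w ∈ W1 \ V1} ≤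
      ν / (q : ℝ) ^ (KN k) * volume.real (W1 \ V1) := by
    intro b _
    refine vol_child hMP hTO hCO hAI hq hRm (hW1.diff hV1) hν ?_
    intro Y hY hd
    exact hCnt Y (fun y hy => ⟨(hY y hy).1, (hY y hy).2.1⟩) hd
  have h2 := le_trans hint (Finset.sum_le_sum hch)
  rw [Finset.sum_const, card_range, nsmul_eq_mul] at h2
  have hq0 : (0 : ℝ) < (q : ℝ) ^ (KN k) := by positivity
  have h3 : volume.real R ≤ 2 * q * ν / (n * (q : ℝ) ^ (KN k)) * volume.real (W1 \ V1) := by
    have h4 : volume.real R = 2 / n * (n / 2 * volume.real R) := by field_simp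
    rw [h4]
    refine le_trans (mul_le_mul_of_nonneg_left h2 (by positivity)) (le_of_eq ?_)
    field_simp
  linarith

theorem pf_RM (hMP : T_MP) (hTO : T_TO) (hCO : L_CO) (hAI : L_AI) : L_RM := by
  intro k q m hk hq W E n ν hW hE h
  have hVm : ∀ i ≤ m, MeasurableSet (Vd q m W E n i) := by
    intro i
    induction i with
    | zero => intro _; exact (hW m le_rfl).diff (hE m le_rfl)
    | succ i ih =>
      intro hi
      unfold Vd
      have h1 : MeasurableSet {w : X k | n (m - (i + 1)) / 2 ≤
          ((pos q (Vd q m W E n i) w).card : ℝ)} :=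
        measurableSet_le measurable_const (meas_pos hMP hq (ih (by omega)))
      exact (hW _ (by omega)).inter ((hE _ (by omega)).compl.inter h1)
  have hVs : ∀ i, Vd q m W E n i ⊆ W (m - i) \ E (m - i) := by
    intro i
    cases i with
    | zero => exact fun w hw => hw
    | succ i =>
      intro w hw
      exact ⟨hw.1, hw.2.1⟩
  refine ⟨fun j => Vd q m W E n (m - j), ?_, ?_, ?_, ?_⟩
  · intro j hj
    refine ⟨hVm _ (by omega), ?_⟩
    have := hVs (m - j)
    rwa [Nat.sub_sub_self hj] at this
  · intro j hj w hw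
    have e : m - j = (m - (j + 1)) + 1 := by omega
    simp only [e] at hw
    unfold Vd at hw
    have e2 : m - (m - (j + 1) + 1) = j := by omega
    rw [e2] at hw
    refine ⟨pos q (Vd q m W E n (m - (j + 1))) w, fun b hb => (mem_pos.1 hb).1, ?_, hw.2.2⟩
    intro b hb
    exact (mem_pos.1 hb).2
  · simp only [Nat.sub_self]
    rfl
  · have key : ∀ i ≤ m, volume.real (W (m - i) \ Vd q m W E n i) ≤ ∑ j ∈ range (i + 1),
        (∏ l ∈ range j, (2 * q * ν (m - i + l) / (n (m - i + l) * (q : ℝ) ^ (KN k)))) *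
          volume.real (W (m - i + j) ∩ E (m - i + j)) := by
      intro i
      induction i with
      | zero =>
        intro _
        simp only [Nat.sub_zero, zero_add, range_one, sum_singleton, range_zero, prod_empty,
          one_mul, add_zero]
        refine measureReal_mono ?_
        rintro w ⟨h1, h2⟩
        refine ⟨h1, ?_⟩
        by_contra h3
        exact h2 ⟨h1, h3⟩
      | succ i ih =>
        intro hi
        obtain ⟨h1, h2, h3, h4⟩ := h (m - (i + 1)) (by omega)
        have e1 : m - (i + 1) + 1 = m - i := by omega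
        rw [e1] at h3
        have h5 := step hMP hTO hCO hAI hq (hW _ (by omega)) (hE _ (by omega))
          (hW (m - i) (by omega)) (hVm i (by omega)) h1 h2 h3 h4
        have h6 := ih (by omega)
        have hq0 : (0 : ℝ) < (q : ℝ) ^ (KN k) := by positivity
        have hc0 : 0 ≤ 2 * q * ν (m - (i + 1)) / (n (m - (i + 1)) * (q : ℝ) ^ (KN k)) := by
          positivity
        refine le_trans h5 ?_
        rw [Finset.sum_range_succ']
        simp only [range_zero, prod_empty, one_mul, add_zero]
        rw [add_comm]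
        refine add_le_add_left (le_trans (mul_le_mul_of_nonneg_left h6 hc0) (le_of_eq ?_)) _
        rw [Finset.mul_sum]
        refine Finset.sum_congr rfl (fun j _ => ?_)
        rw [Finset.prod_range_succ']
        have e3 : ∀ l, m - (i + 1) + (l + 1) = m - i + l := fun l => by omega
        simp only [e3, add_zero]
        ring
    have h0 := key m le_rfl
    simp only [Nat.sub_self, zero_add] at h0
    simp only [Nat.sub_zero]
    exact h0

end Pool.Agent.H84.LVP
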