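import Pool.Agent.H31.LV.Targets

/-!
# Row wEB of lvp_modules: averaging over a line
-/

set_option autoImplicit false

open Finset MeasureTheory

namespace Pool.Agent.H84.LVP

open Pool.Agent.H24.CL Pool.Agent.H24.LV Pool.Agent.H31.LV

theorem per_mul {q : ℕ} {H : ℤ → ℝ} (hH : ∀ z, H (z + q) = H z) (z m : ℤ) :
    H (z + m * q) = H z := by
  induction m using Int.induction_on with
  | zero => simp
  | succ i ih =>
    have e1 : z + ((i : ℤ) + 1) * q = z + (i : ℤ) * q + q := by ring
    rw [e1, hH, ih]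
  | pred i ih =>
    have e1 : z + (-(i : ℤ)) * q = z + (-(i : ℤ) - 1) * q + q := by ring
    rw [e1, hH] at ih
    exact ih

theorem per_congr {q : ℕ} {H : ℤ → ℝ} (hH : ∀ z, H (z + q) = H z) {a b : ℤ}
    (h : (q : ℤ) ∣ a - b) : H a = H b := by
  obtain ⟨m, hm⟩ := h
  have e1 : a = b + m * q := by linarith
  rw [e1, per_mul hH]

theorem per_sum {q : ℕ} (hq : 1 ≤ q) {H : ℤ → ℝ} (hH : ∀ z, H (z + q) = H z) (a u : ℤ)
    (hu : ∃ v : ℤ, (q : ℤ) ∣ u * v - 1) :
    ∑ s ∈ range q, H (a + u * s) = ∑ z ∈ range q, H z := by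
  obtain ⟨v, hv⟩ := hu
  have hq0 : (0 : ℤ) < q := by exact_mod_cast hq
  refine Finset.sum_nbij' (fun s => ((a + u * s) % q).toNat) (fun z => ((v * (z - a)) % q).toNat)
    ?_ ?_ ?_ ?_ ?_
  · intro s _
    rw [mem_range]
    have h1 := Int.emod_nonneg (a + u * s) hq0.ne'
    have h2 := Int.emod_lt_of_pos (a + u * s) hq0
    omega
  · intro z _
    rw [mem_range]
    have h1 := Int.emod_nonneg (v * ((z : ℤ) - a)) hq0.ne'
    have h2 := Int.emod_lt_of_pos (v * ((z : ℤ) - a)) hq0
    omega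
  · intro s hs
    have hs' : (s : ℤ) < q := by exact_mod_cast mem_range.1 hs
    have h1 := Int.emod_nonneg (a + u * s) hq0.ne'
    have h2 : (((a + u * s) % q).toNat : ℤ) = (a + u * s) % q := Int.toNat_of_nonneg h1
    simp only [h2]
    have h3 : (v * ((a + u * s) % q - a)) % q = (s : ℤ) := by
      have h4 : (q : ℤ) ∣ (v * ((a + u * s) % q - a)) - s := by
        have h5 : (q : ℤ) ∣ (a + u * s) % q - (a + u * s) := by
          have := Int.emod_add_mul_ediv (a + u * s) q
          exact ⟨-((a + u * s) / q), by linarith⟩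
        obtain ⟨m1, hm1⟩ := h5
        obtain ⟨m2, hm2⟩ := hv
        refine ⟨v * m1 + m2 * s, ?_⟩
        have e1 : (a + u * s) % q = (a + u * s) + q * m1 := by linarith
        rw [e1]
        linear_combination (s : ℤ) * hm2
      have h6 := (Int.emod_emod_of_dvd (v * ((a + u * s) % q - a)) (dvd_refl (q : ℤ)))
      have h7 := Int.emod_emod_of_dvd (s : ℤ) (dvd_refl (q : ℤ))
      have h8 := (Int.emod_emod_of_dvd ((v * ((a + u * s) % q - a)) - s) (dvd_refl (q : ℤ)))
      rw [Int.emod_eq_of_lt (a := (s : ℤ)) (by positivity) hs'] at h7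
      have h9 : (v * ((a + u * s) % q - a)) % q = (s : ℤ) % q :=
        Int.emod_eq_emod_iff_emod_sub_eq_zero.2 (Int.emod_eq_zero_of_dvd h4)
      rw [h9]
      exact Int.emod_eq_of_lt (by positivity) hs'
    rw [h3]
    simp
  · intro z hz
    have hz' : (z : ℤ) < q := by exact_mod_cast mem_range.1 hz
    have h1 := Int.emod_nonneg (v * ((z : ℤ) - a)) hq0.ne'
    have h2 : (((v * ((z : ℤ) - a)) % q).toNat : ℤ) = (v * ((z : ℤ) - a)) % q :=
      Int.toNat_of_nonneg h1
    simp only [h2]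
    have h3 : (a + u * ((v * ((z : ℤ) - a)) % q)) % q = (z : ℤ) := by
      have h4 : (q : ℤ) ∣ (a + u * ((v * ((z : ℤ) - a)) % q)) - z := by
        have h5 : (q : ℤ) ∣ (v * ((z : ℤ) - a)) % q - (v * ((z : ℤ) - a)) := by
          have := Int.emod_add_mul_ediv (v * ((z : ℤ) - a)) q
          exact ⟨-((v * ((z : ℤ) - a)) / q), by linarith⟩
        obtain ⟨m1, hm1⟩ := h5
        obtain ⟨m2, hm2⟩ := hv
        refine ⟨u * m1 + m2 * (z - a), ?_⟩
        have e1 : (v * ((z : ℤ) - a)) % q = (v * ((z : ℤ) - a)) + q * m1 := by linarith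
        rw [e1]
        linear_combination ((z : ℤ) - a) * hm2
      have h9 : (a + u * ((v * ((z : ℤ) - a)) % q)) % q = (z : ℤ) % q :=
        Int.emod_eq_emod_iff_emod_sub_eq_zero.2 (Int.emod_eq_zero_of_dvd h4)
      rw [h9]
      exact Int.emod_eq_of_lt (by positivity) hz'
    rw [h3]
    simp
  · intro s _
    have h1 := Int.emod_nonneg (a + u * s) hq0.ne'
    have h2 : (((a + u * s) % q).toNat : ℤ) = (a + u * s) % q := Int.toNat_of_nonneg h1
    simp only [h2]
    refine per_congr hH ?_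
    have := Int.emod_add_mul_ediv (a + u * s) q
    exact ⟨(a + u * s) / q, by linarith⟩

theorem pf_wEB : W_EB := by
  intro q D x G L r hq hD hx hcop hL hG hGc hGp hGL hr
  have hq0 : (0 : ℝ) < q := by exact_mod_cast hq
  have hD0 : (0 : ℝ) < D := by exact_mod_cast hD
  have hq1 : (1 : ℝ) ≤ q := by exact_mod_cast hq
  have hxD : (x : ℝ) < D := by exact_mod_cast hx
  have hx0 : (0 : ℝ) ≤ x := Nat.cast_nonneg x
  -- the inverse of `D`
  obtain ⟨u, hu⟩ : ∃ u : ℤ, (q : ℤ) ∣ u * D - 1 := by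
    have h1 : IsCoprime (q : ℤ) (D : ℤ) := Nat.isCoprime_iff_coprime.2 hcop
    obtain ⟨a, b, hab⟩ := h1
    exact ⟨b, -a, by linarith⟩
  set rr : ℤ → ℤ := fun y => u * (y - x) with hrr
  set σ : ℕ → ℝ := fun y => ((y : ℝ) - x) / D with hσ
  have hσ1 : ∀ y, -1 ≤ σ y := by
    intro y
    rw [hσ]
    simp only
    rw [le_div_iff₀ hD0]
    have : (0 : ℝ) ≤ y := Nat.cast_nonneg y
    linarith
  have hσ2 : ∀ y : ℕ, y ≤ D → σ y ≤ 1 := by
    intro y hy
    rw [hσ]
    simp only
    rw [div_le_one hD0]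
    have : (y : ℝ) ≤ D := by exact_mod_cast hy
    linarith
  have hGr : ∀ y ∈ range D, G (r y) (σ y) = G (rr y) (σ y) := by
    intro y hy
    have h1 := hr y (mem_range.1 hy)
    refine per_congr (H := fun z => G z (σ y)) (fun z => hGp z (σ y)) ?_
    obtain ⟨m1, hm1⟩ := h1
    obtain ⟨m2, hm2⟩ := hu
    refine ⟨u * m1 - m2 * r y, ?_⟩
    rw [hrr]
    simp only
    linear_combination u * hm1 - r y * hm2
  have hstep : ∀ s ∈ range q, ∑ y ∈ range D, G (rr y) (σ y) ≤
      s + L * s + ∑ y ∈ range D, G (rr (y + s)) (σ y) := by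
    intro s _
    have hs0 : (0 : ℝ) ≤ s := Nat.cast_nonneg s
    rcases le_or_gt D s with hDs | hDs
    · have h1 : ∑ y ∈ range D, G (rr y) (σ y) ≤ D := by
        refine le_trans (Finset.sum_le_sum (g := fun _ => (1 : ℝ)) (fun y _ => (hG _ _).2)) ?_
        rw [Finset.sum_const, card_range, nsmul_eq_mul, mul_one]
      have h2 : (D : ℝ) ≤ s := by exact_mod_cast hDs
      have h3 : 0 ≤ ∑ y ∈ range D, G (rr (y + s)) (σ y) :=
        Finset.sum_nonneg (fun y _ => (hG _ _).1)
      have h4 : 0 ≤ L * s := by positivity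
      linarith
    · have h1 : ∑ y ∈ range D, G (rr y) (σ y) = ∑ y ∈ range s, G (rr y) (σ y) +
          ∑ y ∈ range (D - s), G (rr ((s + y : ℕ))) (σ (s + y)) := by
        rw [← Finset.sum_range_add_sum_Ico _ (le_of_lt hDs)]
        congr 1
        rw [Finset.sum_Ico_eq_sum_range]
      have h2 : ∑ y ∈ range s, G (rr y) (σ y) ≤ s := by
        refine le_trans (Finset.sum_le_sum (g := fun _ => (1 : ℝ)) (fun y _ => (hG _ _).2)) ?_
        rw [Finset.sum_const, card_range, nsmul_eq_mul, mul_one]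
      have h3 : ∑ y ∈ range (D - s), G (rr ((s + y : ℕ))) (σ (s + y)) ≤
          ∑ y ∈ range (D - s), (G (rr (y + s)) (σ y) + L * (s / D)) := by
        refine Finset.sum_le_sum (fun y hy => ?_)
        have hy' := mem_range.1 hy
        have h4 := hGL (rr (y + s)) (σ (s + y)) (σ y) (hσ1 _) (hσ2 _ (by omega)) (hσ1 _)
          (hσ2 _ (by omega))
        have h5 : σ (s + y) - σ y = s / D := by
          rw [hσ]
          simp only
          push_cast
          field_simp
          ring
        have e0 : |(s : ℝ) / D| = s / D := abs_of_nonneg (by positivity)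
        rw [h5, e0] at h4
        have h6 := le_of_abs_le h4
        have e1 : ((s + y : ℕ) : ℤ) = (y : ℤ) + s := by push_cast; ring
        rw [e1]
        linarith
      have h7 : ∑ y ∈ range (D - s), (G (rr (y + s)) (σ y) + L * (s / D)) ≤
          ∑ y ∈ range D, G (rr (y + s)) (σ y) + L * s := by
        rw [Finset.sum_add_distrib, Finset.sum_const, card_range, nsmul_eq_mul]
        have h8 : ∑ y ∈ range (D - s), G (rr (y + s)) (σ y) ≤
            ∑ y ∈ range D, G (rr (y + s)) (σ y) :=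
          Finset.sum_le_sum_of_subset_of_nonneg (Finset.range_mono (Nat.sub_le _ _))
            (fun y _ _ => (hG _ _).1)
        have h9 : ((D - s : ℕ) : ℝ) * (L * (s / D)) ≤ L * s := by
          have : ((D - s : ℕ) : ℝ) ≤ D := by exact_mod_cast Nat.sub_le D s
          calc ((D - s : ℕ) : ℝ) * (L * (s / D)) ≤ D * (L * (s / D)) :=
                mul_le_mul_of_nonneg_right this (by positivity)
            _ = L * s := by field_simp
        linarith
      linarith
  have havg : (q : ℝ) * ∑ y ∈ range D, G (rr y) (σ y) ≤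
      (1 + L) * q * q + ∑ y ∈ range D, ∑ z ∈ range q, G z (σ y) := by
    have h1 : ∑ s ∈ range q, ∑ y ∈ range D, G (rr y) (σ y) ≤ ∑ s ∈ range q,
        ((s : ℝ) + L * s + ∑ y ∈ range D, G (rr (y + s)) (σ y)) := Finset.sum_le_sum hstep
    rw [Finset.sum_const, card_range, nsmul_eq_mul] at h1
    refine le_trans h1 ?_
    rw [Finset.sum_add_distrib]
    refine add_le_add ?_ (le_of_eq ?_)
    · have h2 : ∀ s ∈ range q, (s : ℝ) + L * s ≤ (1 + L) * q := by
        intro s hs
        have : (s : ℝ) ≤ q := by exact_mod_cast le_of_lt (mem_range.1 hs)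
        nlinarith
      refine le_trans (Finset.sum_le_sum h2) (le_of_eq ?_)
      rw [Finset.sum_const, card_range, nsmul_eq_mul]
      ring
    · rw [Finset.sum_comm]
      refine Finset.sum_congr rfl (fun y _ => ?_)
      have h3 := per_sum hq (H := fun z => G z (σ y)) (fun z => hGp z (σ y)) (rr y) u
        ⟨D, hu⟩
      rw [← h3]
      refine Finset.sum_congr rfl (fun s _ => ?_)
      congr 1
      rw [hrr]
      ring_nf
  have hint : ∀ z : ℤ, (1 / (D : ℝ)) * ∑ y ∈ range D, G z (σ y) ≤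
      (∫ s in (-(x : ℝ) / D)..(-(x : ℝ) / D + 1), G z s) + L / D := by
    intro z
    have hii : ∀ a b : ℝ, IntervalIntegrable (G z) volume a b :=
      fun a b => (hGc z).intervalIntegrable a b
    have h1 : ∑ y ∈ range D, ∫ s in σ y..σ (y + 1), G z s = ∫ s in σ 0..σ D, G z s :=
      intervalIntegral.sum_integral_adjacent_intervals (fun y _ => hii _ _)
    have e1 : σ 0 = -(x : ℝ) / D := by
      rw [hσ]; simp
    have e2 : σ D = -(x : ℝ) / D + 1 := by
      rw [hσ]
      simp only
      field_simp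
      ring
    rw [← e2, ← e1, ← h1, Finset.mul_sum]
    have h2 : ∀ y ∈ range D, 1 / (D : ℝ) * G z (σ y) ≤
        (∫ s in σ y..σ (y + 1), G z s) + L / D * (1 / D) := by
      intro y hy
      have hy' := mem_range.1 hy
      have e3 : σ (y + 1) - σ y = 1 / D := by
        rw [hσ]
        simp only
        push_cast
        field_simp
        ring
      have hle : σ y ≤ σ (y + 1) := by
        have : 0 < 1 / (D : ℝ) := by positivity
        linarith
      have h3 : ∫ s in σ y..σ (y + 1), (G z (σ y) - L / D) ≤ ∫ s in σ y..σ (y + 1), G z s := by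
        refine intervalIntegral.integral_mono_on hle intervalIntegrable_const (hii _ _)
          (fun s hs => ?_)
        have h4 := hGL z (σ y) s (hσ1 _) (hσ2 _ (by omega)) (le_trans (hσ1 _) hs.1)
          (le_trans hs.2 (hσ2 _ (by omega)))
        have h5 : |σ y - s| ≤ 1 / D := by
          rw [abs_le]
          constructor <;> linarith [hs.1, hs.2]
        have h6 : L * |σ y - s| ≤ L / D := by
          calc L * |σ y - s| ≤ L * (1 / D) := mul_le_mul_of_nonneg_left h5 hL
            _ = L / D := by ring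
        have h7 := le_of_abs_le (le_trans h4 h6)
        linarith
      rw [intervalIntegral.integral_const, e3, smul_eq_mul] at h3
      linarith
    refine le_trans (Finset.sum_le_sum h2) ?_
    rw [Finset.sum_add_distrib, Finset.sum_const, card_range, nsmul_eq_mul]
    refine le_of_eq ?_
    congr 1
    field_simp
  have hsum : ∑ y ∈ range D, G (r y) (σ y) = ∑ y ∈ range D, G (rr y) (σ y) :=
    Finset.sum_congr rfl hGr
  have hfin : (1 / (D : ℝ)) * ∑ y ∈ range D, ∑ z ∈ range q, G z (σ y) ≤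
      ∑ z ∈ range q, (∫ s in (-(x : ℝ) / D)..(-(x : ℝ) / D + 1), G z s) + q * (L / D) := by
    rw [Finset.sum_comm, Finset.mul_sum]
    refine le_trans (Finset.sum_le_sum (fun z _ => hint z)) ?_
    rw [Finset.sum_add_distrib, Finset.sum_const, card_range, nsmul_eq_mul]
  change (1 / (D : ℝ)) * ∑ y ∈ range D, G (r y) (σ y) ≤ _
  rw [hsum]
  have h1 : (1 / (D : ℝ)) * ∑ y ∈ range D, G (rr y) (σ y) ≤
      (1 / (q : ℝ)) * ((1 / (D : ℝ)) * ((1 + L) * q * q +
        ∑ y ∈ range D, ∑ z ∈ range q, G z (σ y))) := by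
    have h2 : (1 / (D : ℝ)) * ∑ y ∈ range D, G (rr y) (σ y) =
        (1 / (q : ℝ)) * ((1 / (D : ℝ)) * ((q : ℝ) * ∑ y ∈ range D, G (rr y) (σ y))) := by
      field_simp
    rw [h2]
    exact mul_le_mul_of_nonneg_left (mul_le_mul_of_nonneg_left havg (by positivity))
      (by positivity)
  refine le_trans h1 ?_
  rw [mul_add]
  have h3 : (1 / (q : ℝ)) * ((1 / (D : ℝ)) * ((1 + L) * q * q) + (1 / (D : ℝ)) *
      ∑ y ∈ range D, ∑ z ∈ range q, G z (σ y)) ≤
      (1 / (q : ℝ)) * ((1 / (D : ℝ)) * ((1 + L) * q * q) +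
        (∑ z ∈ range q, (∫ s in (-(x : ℝ) / D)..(-(x : ℝ) / D + 1), G z s) + q * (L / D))) :=
    mul_le_mul_of_nonneg_left (by linarith) (by positivity)
  refine le_trans h3 ?_
  have e4 : (1 / (q : ℝ)) * ((1 / (D : ℝ)) * ((1 + L) * q * q) +
        (∑ z ∈ range q, (∫ s in (-(x : ℝ) / D)..(-(x : ℝ) / D + 1), G z s) + q * (L / D))) =
      (1 / (q : ℝ)) * ∑ z ∈ range q, (∫ s in (-(x : ℝ) / D)..(-(x : ℝ) / D + 1), G z s) +
        ((1 + L) * q / D + L / D) := by
    field_simp
    ring
  rw [e4]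
  have h5 : (1 + L) * q / D + L / D ≤ 4 * (1 + L) * q / D := by
    rw [← add_div]
    refine div_le_div_of_nonneg_right ?_ hD0.le
    nlinarith
  linarith

end Pool.Agent.H84.LVP
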