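import Pool.Agent.H31.LV.Targets
import Pool.Agent.H31.LV.Basic

/-!
# Row wEL of lvp_modules: Lipschitz dependence on the shift
-/

set_option autoImplicit false

open Finset MeasureTheory

namespace Pool.Agent.H84.LVP

open Pool.Agent.H24.CL Pool.Agent.H24.LV Pool.Agent.H31.LV

theorem norm_HH_le {k : ℕ} (q : ℕ) (f : Fin k → ℤ) {N : ℕ} (hN : 1 ≤ N) (η : Fin k → ℝ) (ξ : ℝ)
    (r : ℤ) (σ : ℝ) : ‖HH q f N η ξ r σ‖ ≤ 1 := by
  unfold HH
  rw [norm_mul]
  have hN0 : (0 : ℝ) < N := by exact_mod_cast hN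
  have h1 : ‖∑ n ∈ range N, ee ((Fz f ((n : ℤ) + r) : ℝ) / q + ξ * n + Ps η (n + σ))‖ ≤ N := by
    refine le_trans (norm_sum_le _ _) ?_
    simp only [norm_ee]
    rw [Finset.sum_const, card_range, nsmul_eq_mul, mul_one]
  have h2 : ‖(1 / (N : ℂ))‖ = 1 / (N : ℝ) := by
    rw [norm_div, norm_one, Complex.norm_natCast]
  rw [h2]
  calc 1 / (N : ℝ) * ‖∑ n ∈ range N, ee ((Fz f ((n : ℤ) + r) : ℝ) / q + ξ * n + Ps η (n + σ))‖
      ≤ 1 / (N : ℝ) * N := mul_le_mul_of_nonneg_left h1 (by positivity)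
    _ = 1 := by field_simp

theorem pf_wEL : W_EL := by
  intro k
  refine ⟨4 * Real.pi * (k : ℝ) ^ 2 + 1, ?_, ?_⟩
  · have : 0 ≤ 4 * Real.pi * (k : ℝ) ^ 2 := by positivity
    linarith
  intro q N f η ξ R r σ σ' hq hN hR hη h1 h2 h3 h4
  have hN0 : (0 : ℝ) < N := by exact_mod_cast hN
  have hN1 : (1 : ℝ) ≤ N := by exact_mod_cast hN
  have hps : ∀ n ∈ range N, |Ps η ((n : ℝ) + σ) - Ps η ((n : ℝ) + σ')| ≤
      (k : ℝ) ^ 2 * R * |σ - σ'| := by
    intro n hn
    have hn1 : (n : ℝ) + 1 ≤ N := by exact_mod_cast Nat.succ_le_of_lt (mem_range.1 hn)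
    have hn0 : (0 : ℝ) ≤ n := Nat.cast_nonneg n
    unfold Ps
    rw [← Finset.sum_sub_distrib]
    refine le_trans (Finset.abs_sum_le_sum_abs _ _) ?_
    have h5 : ∀ i ∈ (univ : Finset (Fin k)),
        |(if i.val = 0 then 0 else η i * ((n : ℝ) + σ) ^ (i.val + 1)) -
          (if i.val = 0 then 0 else η i * ((n : ℝ) + σ') ^ (i.val + 1))| ≤
          k * R * |σ - σ'| := by
      intro i _
      by_cases hi : i.val = 0
      · rw [if_pos hi, if_pos hi, sub_zero, abs_zero]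
        positivity
      · rw [if_neg hi, if_neg hi, ← mul_sub, abs_mul]
        have h6 : |((n : ℝ) + σ) ^ (i.val + 1) - ((n : ℝ) + σ') ^ (i.val + 1)| ≤
            |σ - σ'| * (i.val + 1) * (N : ℝ) ^ i.val := by
          have h7 := abs_pow_sub_pow_le ((n : ℝ) + σ) ((n : ℝ) + σ') (i.val + 1)
          rw [Nat.add_sub_cancel] at h7
          have e1 : (n : ℝ) + σ - (n + σ') = σ - σ' := by ring
          rw [e1] at h7
          refine le_trans h7 ?_
          push_cast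
          refine mul_le_mul_of_nonneg_left ?_ (by positivity)
          refine pow_le_pow_left₀ (le_max_of_le_left (abs_nonneg _)) (max_le ?_ ?_) _
          · rw [abs_le]; constructor <;> linarith
          · rw [abs_le]; constructor <;> linarith
        refine le_trans (mul_le_mul (hη i hi) h6 (abs_nonneg _) (by positivity)) ?_
        have hik : (i.val : ℝ) + 1 ≤ k := by exact_mod_cast Nat.succ_le_of_lt i.isLt
        have e2 : R / (N : ℝ) ^ (i.val + 1) * (|σ - σ'| * (i.val + 1) * (N : ℝ) ^ i.val) =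
            (i.val + 1) * R * |σ - σ'| * (1 / N) := by
          rw [pow_succ]
          field_simp
        rw [e2]
        have h8 : 1 / (N : ℝ) ≤ 1 := by
          rw [div_le_one hN0]
          exact hN1
        calc ((i.val : ℝ) + 1) * R * |σ - σ'| * (1 / N)
            ≤ ((i.val : ℝ) + 1) * R * |σ - σ'| * 1 :=
              mul_le_mul_of_nonneg_left h8 (by positivity)
          _ = ((i.val : ℝ) + 1) * (R * |σ - σ'|) := by ring
          _ ≤ k * (R * |σ - σ'|) := mul_le_mul_of_nonneg_right hik (by positivity)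
          _ = k * R * |σ - σ'| := by ring
    refine le_trans (Finset.sum_le_sum h5) (le_of_eq ?_)
    rw [Finset.sum_const, card_univ, Fintype.card_fin, nsmul_eq_mul]
    ring
  have hdiff : ‖HH q f N η ξ r σ - HH q f N η ξ r σ'‖ ≤
      2 * Real.pi * ((k : ℝ) ^ 2 * R * |σ - σ'|) := by
    unfold HH
    rw [← mul_sub, ← Finset.sum_sub_distrib, norm_mul]
    have h2 : ‖(1 / (N : ℂ))‖ = 1 / (N : ℝ) := by
      rw [norm_div, norm_one, Complex.norm_natCast]
    rw [h2]
    have h9 : ‖∑ n ∈ range N, (ee ((Fz f ((n : ℤ) + r) : ℝ) / q + ξ * n + Ps η (n + σ)) -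
        ee ((Fz f ((n : ℤ) + r) : ℝ) / q + ξ * n + Ps η (n + σ')))‖ ≤
        N * (2 * Real.pi * ((k : ℝ) ^ 2 * R * |σ - σ'|)) := by
      refine le_trans (norm_sum_le _ _) ?_
      refine le_trans (Finset.sum_le_sum (g := fun _ => 2 * Real.pi * ((k : ℝ) ^ 2 * R * |σ - σ'|))
        (fun n hn => ?_)) (le_of_eq ?_)
      · refine le_trans (norm_ee_sub _ _) ?_
        have e3 : (Fz f ((n : ℤ) + r) : ℝ) / q + ξ * n + Ps η (n + σ) -
            ((Fz f ((n : ℤ) + r) : ℝ) / q + ξ * n + Ps η (n + σ')) =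
            Ps η (n + σ) - Ps η (n + σ') := by ring
        rw [e3]
        exact mul_le_mul_of_nonneg_left (hps n hn) (by positivity)
      · rw [Finset.sum_const, card_range, nsmul_eq_mul]
    refine le_trans (mul_le_mul_of_nonneg_left h9 (by positivity)) (le_of_eq ?_)
    field_simp
  have ha := norm_HH_le q f hN η ξ r σ
  have hb := norm_HH_le q f hN η ξ r σ'
  have ha0 := norm_nonneg (HH q f N η ξ r σ)
  have hb0 := norm_nonneg (HH q f N η ξ r σ')
  have hab := abs_norm_sub_norm_le (HH q f N η ξ r σ) (HH q f N η ξ r σ')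
  have e4 : ‖HH q f N η ξ r σ‖ ^ 2 - ‖HH q f N η ξ r σ'‖ ^ 2 =
      (‖HH q f N η ξ r σ‖ + ‖HH q f N η ξ r σ'‖) *
        (‖HH q f N η ξ r σ‖ - ‖HH q f N η ξ r σ'‖) := by ring
  rw [e4, abs_mul, abs_of_nonneg (by linarith)]
  have h10 : (‖HH q f N η ξ r σ‖ + ‖HH q f N η ξ r σ'‖) *
      |‖HH q f N η ξ r σ‖ - ‖HH q f N η ξ r σ'‖| ≤
      2 * (2 * Real.pi * ((k : ℝ) ^ 2 * R * |σ - σ'|)) :=
    mul_le_mul (by linarith) (le_trans hab hdiff) (abs_nonneg _) (by norm_num)
  refine le_trans h10 ?_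
  have h11 : 0 ≤ R * |σ - σ'| := by positivity
  nlinarith

end Pool.Agent.H84.LVP
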