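import Pool.Agent.H31.LV.Targets
import Pool.Agent.H31.LV.Basic

/-!
# Row wWI of lvp_modules: the inverse theorem of Weyl with all coefficients
-/

set_option autoImplicit false

open Finset MeasureTheory

namespace Pool.Agent.H84.LVP

open Pool.Agent.H24.CL Pool.Agent.H24.LV Pool.Agent.H31.LV

/-- one bound `K δ^(-e)` is at most `C δ^(-C)` if `K, e ≤ C` -/
theorem rp_mono {δ K e C : ℝ} (hδ : 0 < δ) (hδ1 : δ ≤ 1) (hKC : K ≤ C) (heC : e ≤ C)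
    (hC : 0 ≤ C) : K * δ ^ (-e) ≤ C * δ ^ (-C) := by
  have h1 : δ ^ (-e) ≤ δ ^ (-C) :=
    Real.rpow_le_rpow_of_exponent_ge hδ hδ1 (by linarith)
  have h2 : 0 ≤ δ ^ (-e) := Real.rpow_nonneg hδ.le _
  exact mul_le_mul hKC h1 h2 hC

theorem rp_one_le {δ C : ℝ} (hδ : 0 < δ) (hδ1 : δ ≤ 1) (hC : 0 ≤ C) : 1 ≤ δ ^ (-C) :=
  Real.one_le_rpow_of_pos_of_le_one_of_nonpos hδ hδ1 (by linarith)

theorem near_triv (x : ℝ) : ∃ a : ℤ, |((1 : ℕ) : ℝ) * x - a| ≤ 1 / 2 := by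
  refine ⟨round x, ?_⟩
  rw [Nat.cast_one, one_mul]
  exact abs_sub_round x

theorem wi_step (d : ℕ) (hWT : W_WT) (hWR : W_WR) (hWD : W_WD)
    (ih : ∃ C : ℝ, 1 ≤ C ∧ ∀ (N A B : ℕ) (c : ℕ → ℝ) (δ : ℝ), 1 ≤ N → A ≤ B → B ≤ N →
    0 < δ → δ ≤ 1 → δ * N ≤ ‖∑ n ∈ Ico A B, ee (pl d c n)‖ →
    ∃ q : ℕ, 1 ≤ q ∧ (q : ℝ) ≤ C * δ ^ (-C) ∧
      ∀ i < d, ∃ a : ℤ, |q * c i - a| ≤ C * δ ^ (-C) / (N : ℝ) ^ (i + 1)) :
    ∃ C : ℝ, 1 ≤ C ∧ ∀ (N A B : ℕ) (c : ℕ → ℝ) (δ : ℝ), 1 ≤ N → A ≤ B → B ≤ N →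
    0 < δ → δ ≤ 1 → δ * N ≤ ‖∑ n ∈ Ico A B, ee (pl (d + 1) c n)‖ →
    ∃ q : ℕ, 1 ≤ q ∧ (q : ℝ) ≤ C * δ ^ (-C) ∧
      ∀ i < d + 1, ∃ a : ℤ, |q * c i - a| ≤ C * δ ^ (-C) / (N : ℝ) ^ (i + 1) := by
  obtain ⟨Ci, hCi, ih⟩ := ih
  obtain ⟨Ct, hCt, hWT⟩ := hWT (d + 1) (by omega)
  obtain ⟨Cr, hCr, hWR⟩ := hWR d
  obtain ⟨Cd, hCd, hWD⟩ := hWD d
  set K : ℝ := Cd * Ct ^ (d + 1) * (Ci * 4 ^ Ci) * (Cr * Ct) ^ (d + 1) with hK
  set e : ℝ := Ct * (d + 1) + Ci + (Ct + 1) * (d + 1) with he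
  have hd0 : (0 : ℝ) ≤ d := Nat.cast_nonneg d
  have hCt0 : 0 < Ct := by linarith
  have hCi0 : 0 < Ci := by linarith
  have hCr0 : 0 < Cr := by linarith
  have hCd0 : 0 < Cd := by linarith
  have h4 : (1 : ℝ) ≤ 4 ^ Ci := Real.one_le_rpow (by norm_num) hCi0.le
  have hK0 : 0 < K := by positivity
  have he0 : 0 ≤ e := by positivity
  refine ⟨K + e + 1, by linarith, ?_⟩
  intro N A B c δ hN hAB hBN hδ hδ1 hbig
  have hN0 : (0 : ℝ) < N := by exact_mod_cast hN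
  have hC0 : 0 ≤ K + e + 1 := by linarith
  set F : ℝ := (K + e + 1) * δ ^ (-(K + e + 1)) with hF
  obtain ⟨q1, hq1, hq1Q, a1, ha1⟩ := hWT N A B c δ hN hAB (by omega) hδ hδ1 hbig
  rw [Nat.add_sub_cancel] at ha1
  set Q1 : ℝ := Ct * δ ^ (-Ct) with hQ1
  have hQ1pos : 1 ≤ Q1 := by
    have := rp_one_le hδ hδ1 hCt0.le
    calc (1 : ℝ) = 1 * 1 := by ring
      _ ≤ Ct * δ ^ (-Ct) := mul_le_mul hCt this zero_le_one hCt0.le
  have hQ10 : 0 < Q1 := by linarith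
  set U : ℝ := Cr * Q1 / δ with hU
  have hU1 : 1 ≤ U := by
    rw [hU, le_div_iff₀ hδ, one_mul]
    calc δ ≤ 1 * 1 := by linarith
      _ ≤ Cr * Q1 := mul_le_mul hCr hQ1pos zero_le_one hCr0.le
  -- the size of the final bound
  have hUe : U = (Cr * Ct) * δ ^ (-(Ct + 1)) := by
    rw [hU, hQ1, neg_add, Real.rpow_add hδ, Real.rpow_neg_one]
    field_simp
  have hUpow : U ^ (d + 1) = (Cr * Ct) ^ (d + 1) * δ ^ (-((Ct + 1) * (d + 1))) := by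
    rw [hUe, mul_pow, ← Real.rpow_natCast (δ ^ (-(Ct + 1))), ← Real.rpow_mul hδ.le]
    congr 2
    push_cast
    ring
  have hQpow : Q1 ^ (d + 1) = Ct ^ (d + 1) * δ ^ (-(Ct * (d + 1))) := by
    rw [hQ1, mul_pow, ← Real.rpow_natCast (δ ^ (-Ct)), ← Real.rpow_mul hδ.le]
    congr 2
    push_cast
    ring
  set Q2 : ℝ := Ci * (δ / 4) ^ (-Ci) with hQ2
  have hQ2e : Q2 = (Ci * 4 ^ Ci) * δ ^ (-Ci) := by
    rw [hQ2, Real.div_rpow hδ.le (by norm_num), Real.rpow_neg (by norm_num : (0 : ℝ) ≤ 4)]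
    rw [div_inv_eq_mul]
    ring
  have hQ2pos : 0 < Q2 := by
    rw [hQ2e]
    have := Real.rpow_pos_of_pos hδ (-Ci)
    positivity
  have hall : Cd * Q1 ^ (d + 1) * (Q2 * U ^ (d + 1)) ≤ F := by
    have e1 : Cd * Q1 ^ (d + 1) * (Q2 * U ^ (d + 1)) = K * δ ^ (-e) := by
      have e2 : -e = -(Ct * (d + 1)) + -Ci + -((Ct + 1) * (d + 1)) := by rw [he]; ring
      rw [hQpow, hQ2e, hUpow, e2, Real.rpow_add hδ, Real.rpow_add hδ, hK]
      ring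
    rw [e1]
    exact rp_mono hδ hδ1 (by linarith) (by linarith) hC0
  have hUN : ∀ i < d + 1, U ^ (i + 1) ≤ U ^ (d + 1) :=
    fun i hi => pow_le_pow_right₀ hU1 (by omega)
  have hQ1d : (1 : ℝ) ≤ Q1 ^ (d + 1) := one_le_pow₀ hQ1pos
  have hUd : (1 : ℝ) ≤ U ^ (d + 1) := one_le_pow₀ hU1
  have hQ21 : 1 ≤ Q2 := by
    have := rp_one_le hδ hδ1 hCi0.le
    rw [hQ2e]
    have h5 : 1 ≤ Ci * 4 ^ Ci := one_le_mul_of_one_le_of_one_le hCi h4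
    exact one_le_mul_of_one_le_of_one_le h5 this
  have hUF : U ^ (d + 1) ≤ F := by
    refine le_trans ?_ hall
    have h5 : 1 ≤ Cd * Q1 ^ (d + 1) := one_le_mul_of_one_le_of_one_le hCd hQ1d
    have h6 : U ^ (d + 1) ≤ Q2 * U ^ (d + 1) := le_mul_of_one_le_left (by positivity) hQ21
    have h7 : Q2 * U ^ (d + 1) ≤ Cd * Q1 ^ (d + 1) * (Q2 * U ^ (d + 1)) :=
      le_mul_of_one_le_left (by positivity) h5
    linarith
  rcases lt_or_ge (N : ℝ) U with hsmall | hlarge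
  · -- trivial case
    refine ⟨1, le_rfl, ?_, fun i hi => ?_⟩
    · rw [Nat.cast_one]
      linarith
    · obtain ⟨a, ha⟩ := near_triv (c i)
      refine ⟨a, le_trans ha ?_⟩
      rw [le_div_iff₀ (by positivity)]
      have h5 : (N : ℝ) ^ (i + 1) ≤ U ^ (i + 1) := pow_le_pow_left₀ hN0.le hsmall.le _
      have h6 := hUN i hi
      have h7 : 0 < (N : ℝ) ^ (i + 1) := by positivity
      linarith
  · obtain ⟨n, T, hn, hT1, hTN, hTlo, hsum⟩ := hWR N A B q1 c δ Q1 a1 hN hAB hBN hδ hδ1 hq1 hq1Q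
      ha1 hbig hlarge
    have hT0 : (0 : ℝ) < T := by exact_mod_cast hT1
    rw [Finset.range_eq_Ico] at hsum
    obtain ⟨q2, hq2, hq2Q, hco⟩ := ih T 0 T (phr d q1 n c) (δ / 4) hT1 (Nat.zero_le _) le_rfl
      (by linarith) (by linarith) hsum
    have hTU : (N : ℝ) ≤ U * T := by
      rw [div_le_iff₀ (by positivity)] at hTlo
      rw [hU, div_mul_eq_mul_div, le_div_iff₀ hδ]
      linarith
    have hco2 : ∀ i < d, ∃ a : ℤ, |q2 * phr d q1 n c i - a| ≤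
        (Q2 * U ^ (d + 1)) / (N : ℝ) ^ (i + 1) := by
      intro i hi
      obtain ⟨a, ha⟩ := hco i hi
      refine ⟨a, le_trans ha ?_⟩
      rw [div_le_div_iff₀ (by positivity) (by positivity)]
      have h5 : (N : ℝ) ^ (i + 1) ≤ U ^ (i + 1) * (T : ℝ) ^ (i + 1) := by
        rw [← mul_pow]
        exact pow_le_pow_left₀ hN0.le hTU _
      have h6 := hUN i (by omega)
      calc Q2 * (N : ℝ) ^ (i + 1) ≤ Q2 * (U ^ (i + 1) * (T : ℝ) ^ (i + 1)) :=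
            mul_le_mul_of_nonneg_left h5 hQ2pos.le
        _ ≤ Q2 * (U ^ (d + 1) * (T : ℝ) ^ (i + 1)) := by gcongr
        _ = Q2 * U ^ (d + 1) * (T : ℝ) ^ (i + 1) := by ring
    have hwd := hWD q1 n N q2 c (Q2 * U ^ (d + 1)) hq1 hN hn.le (by positivity) hco2
    have hq10 : (0 : ℝ) < q1 := by exact_mod_cast hq1
    have hq11 : (1 : ℝ) ≤ q1 := by exact_mod_cast hq1
    have hq20 : (0 : ℝ) < q2 := by exact_mod_cast hq2
    have hqq : (q1 : ℝ) ^ (d + 1) ≤ Q1 ^ (d + 1) := pow_le_pow_left₀ hq10.le hq1Q _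
    refine ⟨q2 * q1 ^ (d + 1), ?_, ?_, fun i hi => ?_⟩
    · exact Nat.mul_pos hq2 (pow_pos hq1 _)
    · push_cast
      refine le_trans ?_ hall
      calc (q2 : ℝ) * (q1 : ℝ) ^ (d + 1) ≤ Q2 * Q1 ^ (d + 1) :=
            mul_le_mul hq2Q hqq (by positivity) hQ2pos.le
        _ = 1 * Q1 ^ (d + 1) * (Q2 * 1) := by ring
        _ ≤ Cd * Q1 ^ (d + 1) * (Q2 * U ^ (d + 1)) := by gcongr
    · rcases Nat.lt_or_ge i d with hid | hid
      · obtain ⟨a, ha⟩ := hwd i hid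
        refine ⟨q1 * a, ?_⟩
        have e1 : ((q2 * q1 ^ (d + 1) : ℕ) : ℝ) * c i - ((q1 * a : ℤ) : ℝ) =
            q1 * (((q2 * q1 ^ d : ℕ) : ℝ) * c i - a) := by
          push_cast
          ring
        rw [e1, abs_mul, abs_of_pos hq10]
        refine le_trans (mul_le_mul_of_nonneg_left ha hq10.le) ?_
        rw [mul_div_assoc']
        refine div_le_div_of_nonneg_right (le_trans (le_of_eq ?_) (le_trans
          (?_ : Cd * (q1 : ℝ) ^ (d + 1) * (Q2 * U ^ (d + 1)) ≤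
            Cd * Q1 ^ (d + 1) * (Q2 * U ^ (d + 1))) hall)) (by positivity)
        · ring
        · gcongr
      · have hid : i = d := by omega
        subst hid
        refine ⟨q2 * q1 ^ i * a1, ?_⟩
        have e1 : ((q2 * q1 ^ (i + 1) : ℕ) : ℝ) * c i - ((q2 * q1 ^ i * a1 : ℤ) : ℝ) =
            (q2 * q1 ^ i) * (q1 * c i - a1) := by
          push_cast
          ring
        rw [e1, abs_mul, abs_of_pos (by positivity)]
        refine le_trans (mul_le_mul_of_nonneg_left ha1 (by positivity)) ?_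
        rw [mul_div_assoc']
        refine div_le_div_of_nonneg_right (le_trans ?_ hall) (by positivity)
        have h8 : (q1 : ℝ) ^ i ≤ Q1 ^ i := pow_le_pow_left₀ hq10.le hq1Q _
        calc (q2 : ℝ) * (q1 : ℝ) ^ i * Q1 ≤ Q2 * Q1 ^ i * Q1 := by gcongr
          _ = 1 * Q1 ^ (i + 1) * (Q2 * 1) := by ring
          _ ≤ Cd * Q1 ^ (i + 1) * (Q2 * U ^ (i + 1)) := by gcongr

theorem pf_wWI (hWT : W_WT) (hWR : W_WR) (hWD : W_WD) : W_WI := by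
  intro d
  induction d with
  | zero =>
    refine ⟨1, le_rfl, ?_⟩
    intro N A B c δ _ _ _ hδ hδ1 _
    refine ⟨1, le_rfl, ?_, fun i hi => absurd hi (Nat.not_lt_zero i)⟩
    rw [Nat.cast_one, one_mul]
    exact rp_one_le hδ hδ1 zero_le_one
  | succ d ih => exact wi_step d hWT hWR hWD ih

end Pool.Agent.H84.LVP
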