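import Pool.Agent.H31.LV.Targets
import Pool.Agent.H31.LV.Basic

/-!
# Row wWR of lvp_modules: a large sum over a progression for a polynomial of smaller degree
-/

set_option autoImplicit false

open Finset MeasureTheory

namespace Pool.Agent.H84.LVP

open Pool.Agent.H24.CL Pool.Agent.H24.LV Pool.Agent.H31.LV

/-- shifting the summation interval -/
theorem shift_norm (f : ℕ → ℂ) (hf : ∀ n, ‖f n‖ ≤ 1) {A B : ℕ} (hAB : A ≤ B) (s : ℕ) :
    ‖∑ n ∈ Ico A B, f (n + s) - ∑ n ∈ Ico A B, f n‖ ≤ 2 * s := by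
  induction s with
  | zero => simp
  | succ s ih =>
    have h1 : ∑ n ∈ Ico A B, f (n + (s + 1)) - ∑ n ∈ Ico A B, f (n + s) =
        f (B + s) - f (A + s) := by
      rw [← Finset.sum_sub_distrib]
      have h2 : ∀ n ∈ Ico A B, f (n + (s + 1)) - f (n + s) =
          (fun m => f (m + s)) (n + 1) - (fun m => f (m + s)) n := by
        intro n _
        simp only
        congr 2
        ring
      rw [Finset.sum_congr rfl h2]
      exact Finset.sum_Ico_sub (fun m => f (m + s)) hAB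
    have h3 : ∑ n ∈ Ico A B, f (n + (s + 1)) - ∑ n ∈ Ico A B, f n =
        (∑ n ∈ Ico A B, f (n + (s + 1)) - ∑ n ∈ Ico A B, f (n + s)) +
          (∑ n ∈ Ico A B, f (n + s) - ∑ n ∈ Ico A B, f n) := by ring
    rw [h3, h1]
    refine le_trans (norm_add_le _ _) ?_
    have h4 : ‖f (B + s) - f (A + s)‖ ≤ 2 := by
      refine le_trans (norm_sub_le _ _) ?_
      have := hf (B + s)
      have := hf (A + s)
      linarith
    push_cast
    linarith

/-- averaging over short progressions -/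
theorem avg_shift (f : ℕ → ℂ) (hf : ∀ n, ‖f n‖ ≤ 1) {A B N q T : ℕ} (hAB : A ≤ B) (hB : B ≤ N)
    {δ : ℝ} (hδ : 0 < δ) (hN : 1 ≤ N) (hT : 1 ≤ T) (hqT : (q : ℝ) * T ≤ δ * N / 8)
    (h : δ * N ≤ ‖∑ n ∈ Ico A B, f n‖) :
    ∃ n, n < N ∧ 7 / 8 * δ * T ≤ ‖∑ m ∈ range T, f (n + q * m)‖ := by
  have hN0 : (0 : ℝ) < N := by exact_mod_cast hN
  have hT0 : (0 : ℝ) < T := by exact_mod_cast hT
  by_contra hcon
  push Not at hcon
  have h1 : ‖∑ m ∈ range T, ∑ n ∈ Ico A B, f (n + q * m) - T * ∑ n ∈ Ico A B, f n‖ ≤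
      q * T * T := by
    have e1 : ∑ m ∈ range T, ∑ n ∈ Ico A B, f (n + q * m) - T * ∑ n ∈ Ico A B, f n =
        ∑ m ∈ range T, (∑ n ∈ Ico A B, f (n + q * m) - ∑ n ∈ Ico A B, f n) := by
      rw [Finset.sum_sub_distrib, Finset.sum_const, card_range, nsmul_eq_mul]
    rw [e1]
    refine le_trans (norm_sum_le _ _) ?_
    have h2 : ∀ m ∈ range T, ‖∑ n ∈ Ico A B, f (n + q * m) - ∑ n ∈ Ico A B, f n‖ ≤
        2 * q * m := by
      intro m _
      have := shift_norm f hf hAB (q * m)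
      push_cast at this
      linarith
    refine le_trans (Finset.sum_le_sum h2) ?_
    rw [← Finset.mul_sum]
    have h3 : (∑ m ∈ range T, (m : ℝ)) * 2 ≤ T * T := by
      have h4 := Finset.sum_range_id_mul_two T
      have h5 : (∑ m ∈ range T, m) * 2 ≤ T * T := by
        rw [h4]
        exact Nat.mul_le_mul_left _ (Nat.sub_le _ _)
      have h6 : ((∑ m ∈ range T, m : ℕ) : ℝ) * 2 ≤ T * T := by exact_mod_cast h5
      rwa [Nat.cast_sum] at h6
    have hq0 : (0 : ℝ) ≤ q := Nat.cast_nonneg q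
    nlinarith
  have h2 : ‖∑ m ∈ range T, ∑ n ∈ Ico A B, f (n + q * m)‖ ≤ N * (7 / 8 * δ * T) := by
    rw [Finset.sum_comm]
    refine le_trans (norm_sum_le _ _) ?_
    have h3 : ∀ n ∈ Ico A B, ‖∑ m ∈ range T, f (n + q * m)‖ ≤ 7 / 8 * δ * T := by
      intro n hn
      exact (hcon n (lt_of_lt_of_le (mem_Ico.1 hn).2 hB)).le
    refine le_trans (Finset.sum_le_sum h3) ?_
    rw [Finset.sum_const, Nat.card_Ico, nsmul_eq_mul]
    refine mul_le_mul_of_nonneg_right ?_ (by positivity)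
    exact_mod_cast le_trans (Nat.sub_le _ _) hB
  have h3 : ‖(T : ℂ) * ∑ n ∈ Ico A B, f n‖ = T * ‖∑ n ∈ Ico A B, f n‖ := by
    rw [norm_mul, Complex.norm_natCast]
  have h4 : (T : ℝ) * (δ * N) ≤ N * (7 / 8 * δ * T) + q * T * T := by
    have h5 : ‖(T : ℂ) * ∑ n ∈ Ico A B, f n‖ ≤
        ‖∑ m ∈ range T, ∑ n ∈ Ico A B, f (n + q * m)‖ +
        ‖∑ m ∈ range T, ∑ n ∈ Ico A B, f (n + q * m) - T * ∑ n ∈ Ico A B, f n‖ := by
      have := norm_sub_norm_le ((T : ℂ) * ∑ n ∈ Ico A B, f n)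
        (∑ m ∈ range T, ∑ n ∈ Ico A B, f (n + q * m))
      rw [norm_sub_rev ((T : ℂ) * ∑ n ∈ Ico A B, f n)] at this
      linarith
    rw [h3] at h5
    have h6 : (T : ℝ) * (δ * N) ≤ T * ‖∑ n ∈ Ico A B, f n‖ := mul_le_mul_of_nonneg_left h hT0.le
    linarith
  -- strictness
  rcases Nat.eq_zero_or_pos (B - A) with h0 | h0
  · have : Ico A B = ∅ := by
      rw [Finset.Ico_eq_empty_iff]
      omega
    rw [this, Finset.sum_empty, norm_zero] at h
    nlinarith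
  · have h7 : ‖∑ m ∈ range T, ∑ n ∈ Ico A B, f (n + q * m)‖ < N * (7 / 8 * δ * T) := by
      rw [Finset.sum_comm]
      refine lt_of_le_of_lt (norm_sum_le _ _) ?_
      have h3 : ∀ n ∈ Ico A B, ‖∑ m ∈ range T, f (n + q * m)‖ < 7 / 8 * δ * T := by
        intro n hn
        exact hcon n (lt_of_lt_of_le (mem_Ico.1 hn).2 hB)
      have hne : (Ico A B).Nonempty := Finset.nonempty_Ico.2 (by omega)
      refine lt_of_lt_of_le (Finset.sum_lt_sum_of_nonempty hne h3) ?_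
      rw [Finset.sum_const, Nat.card_Ico, nsmul_eq_mul]
      refine mul_le_mul_of_nonneg_right ?_ (by positivity)
      exact_mod_cast le_trans (Nat.sub_le _ _) hB
    have h8 : (T : ℝ) * (δ * N) < N * (7 / 8 * δ * T) + q * T * T := by
      have h5 : ‖(T : ℂ) * ∑ n ∈ Ico A B, f n‖ ≤
          ‖∑ m ∈ range T, ∑ n ∈ Ico A B, f (n + q * m)‖ +
          ‖∑ m ∈ range T, ∑ n ∈ Ico A B, f (n + q * m) - T * ∑ n ∈ Ico A B, f n‖ := by
        have := norm_sub_norm_le ((T : ℂ) * ∑ n ∈ Ico A B, f n)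
          (∑ m ∈ range T, ∑ n ∈ Ico A B, f (n + q * m))
        rw [norm_sub_rev ((T : ℂ) * ∑ n ∈ Ico A B, f n)] at this
        linarith
      rw [h3] at h5
      have h6 : (T : ℝ) * (δ * N) ≤ T * ‖∑ n ∈ Ico A B, f n‖ :=
        mul_le_mul_of_nonneg_left h hT0.le
      linarith
    have h9 : (q : ℝ) * T * T ≤ δ * N / 8 * T := mul_le_mul_of_nonneg_right hqT hT0.le
    nlinarith

theorem pow_diff (x y b : ℝ) (hx : 0 ≤ x) (hxy : x ≤ y) (hy : y ≤ b) (d : ℕ) :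
    y ^ (d + 1) - x ^ (d + 1) ≤ (d + 1) * b ^ d * (y - x) := by
  have h1 := abs_pow_sub_pow_le y x (d + 1)
  rw [Nat.add_sub_cancel] at h1
  have h2 := le_of_abs_le h1
  refine le_trans h2 ?_
  rw [abs_of_nonneg (by linarith : (0 : ℝ) ≤ y - x), abs_of_nonneg hx,
    abs_of_nonneg (le_trans hx hxy), max_eq_left hxy]
  push_cast
  have h3 : y ^ d ≤ b ^ d := pow_le_pow_left₀ (le_trans hx hxy) hy d
  have h4 : 0 ≤ y - x := by linarith
  calc (y - x) * (d + 1) * y ^ d ≤ (y - x) * (d + 1) * b ^ d :=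
        mul_le_mul_of_nonneg_left h3 (by positivity)
    _ = (d + 1) * b ^ d * (y - x) := by ring

theorem wr_alg (Q N q m : ℝ) (d : ℕ) (hN : 0 < N) (hq : 0 < q) :
    (Q / N ^ (d + 1)) / q * (((d : ℝ) + 1) * (2 * N) ^ d * (q * m)) =
      (((d : ℝ) + 1) * 2 ^ d) * (Q * m) / N := by
  have hx : 0 < N ^ d := by positivity
  rw [mul_pow, pow_succ]
  generalize N ^ d = x at hx
  generalize (2 : ℝ) ^ d = y
  field_simp

theorem pl_succ (d : ℕ) (c : ℕ → ℝ) (x : ℝ) : pl (d + 1) c x = pl d c x + c d * x ^ (d + 1) := by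
  unfold pl
  rw [Finset.sum_range_succ]

theorem pf_wWR : W_WR := by
  intro d
  have hpi := Real.pi_pos
  have hpi3 := Real.pi_gt_three
  have h2d : (1 : ℝ) ≤ 2 ^ d := one_le_pow₀ (by norm_num)
  have hd1 : (1 : ℝ) ≤ (d : ℝ) + 1 := by
    have : (0 : ℝ) ≤ d := Nat.cast_nonneg d
    linarith
  set C : ℝ := 64 * Real.pi * ((d : ℝ) + 1) * 2 ^ d with hC
  have hC16 : 64 ≤ C := by
    have h1 : 1 ≤ ((d : ℝ) + 1) * 2 ^ d := one_le_mul_of_one_le_of_one_le hd1 h2d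
    have h2 : (64 : ℝ) ≤ 64 * Real.pi := by linarith
    have e1 : C = 64 * Real.pi * (((d : ℝ) + 1) * 2 ^ d) := by rw [hC]; ring
    rw [e1]
    calc (64 : ℝ) ≤ 64 * Real.pi := h2
      _ = 64 * Real.pi * 1 := by ring
      _ ≤ _ := mul_le_mul_of_nonneg_left h1 (by positivity)
  refine ⟨C, by linarith, ?_⟩
  intro N A B q c δ Q a hN hAB hBN hδ hδ1 hq hqQ ha hbig hNQ
  have hN0 : (0 : ℝ) < N := by exact_mod_cast hN
  have hq0 : (0 : ℝ) < q := by exact_mod_cast hq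
  have hq1 : (1 : ℝ) ≤ q := by exact_mod_cast hq
  have hQ1 : 1 ≤ Q := le_trans hq1 hqQ
  have hQ0 : 0 < Q := by linarith
  have hC0 : 0 < C := by linarith
  set z : ℝ := δ * N / (C * Q) with hz
  have hz1 : 1 ≤ z := by
    rw [hz, le_div_iff₀ (by positivity), one_mul]
    rw [div_le_iff₀ hδ] at hNQ
    linarith
  set T : ℕ := ⌊2 * z⌋₊ with hTdef
  have hT1 : z ≤ T := by
    have := Nat.lt_floor_add_one (2 * z)
    rw [← hTdef] at this
    linarith
  have hT2 : (T : ℝ) ≤ 2 * z := Nat.floor_le (by linarith)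
  have hTpos : 1 ≤ T := by
    have : (1 : ℝ) ≤ T := le_trans hz1 hT1
    exact_mod_cast this
  have hT0 : (0 : ℝ) < T := by exact_mod_cast hTpos
  have hCQ : 0 < C * Q := by positivity
  have hzN : C * Q * z = δ * N := by
    rw [hz]; field_simp
  have hQz : Q * z ≤ δ * N / 64 := by
    have : 64 * (Q * z) ≤ C * (Q * z) := mul_le_mul_of_nonneg_right hC16 (by positivity)
    linarith
  have hqT : (q : ℝ) * T ≤ δ * N / 8 := by
    have h1 : (q : ℝ) * T ≤ Q * (2 * z) := mul_le_mul hqQ hT2 hT0.le hQ0.le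
    have h2 : 0 ≤ δ * N := by positivity
    linarith
  have hδN : δ * N ≤ N := by
    have := mul_le_mul_of_nonneg_right hδ1 hN0.le
    linarith
  have hqTN : (q : ℝ) * T ≤ N := by linarith
  have hTN : (T : ℝ) ≤ N := by
    have : (T : ℝ) ≤ q * T := le_mul_of_one_le_left hT0.le hq1
    linarith
  obtain ⟨n, hn, hsum⟩ := avg_shift (fun n => ee (pl (d + 1) c n)) (fun n => (norm_ee _).le)
    hAB hBN hδ hN hTpos hqT hbig
  refine ⟨n, T, hn, hTpos, by exact_mod_cast hTN, hT1, ?_⟩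
  have hnN : (n : ℝ) ≤ N := by exact_mod_cast hn.le
  have hn0 : (0 : ℝ) ≤ n := Nat.cast_nonneg n
  have hterm : ∀ m ∈ range T, ‖ee (pl (d + 1) c ((n + q * m : ℕ) : ℝ)) -
      ee (pl (d + 1) c n) * ee (pl d (phr d q n c) m)‖ ≤ δ / 16 := by
    intro m hm
    have hm' : (m : ℝ) ≤ T := by exact_mod_cast (mem_range.1 hm).le
    have hm0 : (0 : ℝ) ≤ m := Nat.cast_nonneg m
    rw [← ee_add, pl_phr, pl_succ, pl_succ]
    -- remove the integer
    have hint : ∃ w : ℤ, (a : ℝ) / q * ((((n + q * m : ℕ) : ℝ)) ^ (d + 1) - (n : ℝ) ^ (d + 1)) =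
        w := by
      have h1 : ((n + q * m : ℤ) - n) ∣ ((n + q * m : ℤ)) ^ (d + 1) - (n : ℤ) ^ (d + 1) :=
        sub_dvd_pow_sub_pow _ _ _
      obtain ⟨w, hw⟩ := h1
      refine ⟨a * m * w, ?_⟩
      have h2 : ((((n + q * m : ℕ) : ℝ)) ^ (d + 1) - (n : ℝ) ^ (d + 1)) = q * m * w := by
        have h3 : ((((n : ℤ) + q * m : ℤ) ^ (d + 1) - (n : ℤ) ^ (d + 1) : ℤ) : ℝ) =
            ((((n : ℤ) + q * m) - n) * w : ℤ) := by
          exact_mod_cast congrArg (Int.cast : ℤ → ℝ) hw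
        push_cast at h3 ⊢
        rw [h3]
        ring
      rw [h2]
      push_cast
      field_simp
    obtain ⟨w, hw⟩ := hint
    set ρ : ℝ := q * c d - a with hρ
    have hcd : c d = a / q + ρ / q := by
      rw [hρ]; field_simp; ring
    have hx : ee (pl d c ((n + q * m : ℕ) : ℝ) + c d * ((n + q * m : ℕ) : ℝ) ^ (d + 1)) =
        ee (pl d c ((n + q * m : ℕ) : ℝ) + c d * (n : ℝ) ^ (d + 1) +
          ρ / q * (((n + q * m : ℕ) : ℝ) ^ (d + 1) - (n : ℝ) ^ (d + 1))) := by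
      refine ee_congr _ _ w ?_
      rw [← hw]
      have e1 : c d * ((n + q * m : ℕ) : ℝ) ^ (d + 1) - c d * (n : ℝ) ^ (d + 1) =
          (a / q + ρ / q) * (((n + q * m : ℕ) : ℝ) ^ (d + 1) - (n : ℝ) ^ (d + 1)) := by
        rw [← hcd]; ring
      linear_combination e1
    rw [hx]
    refine le_trans (norm_ee_sub _ _) ?_
    have e2 : pl d c ((n + q * m : ℕ) : ℝ) + c d * (n : ℝ) ^ (d + 1) +
          ρ / q * (((n + q * m : ℕ) : ℝ) ^ (d + 1) - (n : ℝ) ^ (d + 1)) -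
        (pl d c n + c d * (n : ℝ) ^ (d + 1) + (pl d c ((n : ℝ) + q * m) - pl d c n)) =
        ρ / q * (((n + q * m : ℕ) : ℝ) ^ (d + 1) - (n : ℝ) ^ (d + 1)) := by
      push_cast
      ring
    rw [e2, abs_mul]
    have hqm : (q : ℝ) * m ≤ N := le_trans (mul_le_mul_of_nonneg_left hm' hq0.le) hqTN
    have h5 : ((n + q * m : ℕ) : ℝ) ^ (d + 1) - (n : ℝ) ^ (d + 1) ≤
        (d + 1) * (2 * N) ^ d * (q * m) := by
      have := pow_diff (n : ℝ) ((n + q * m : ℕ) : ℝ) (2 * N) hn0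
        (by push_cast; nlinarith) (by push_cast; linarith) d
      refine le_trans this (le_of_eq ?_)
      push_cast
      ring
    have h6 : 0 ≤ ((n + q * m : ℕ) : ℝ) ^ (d + 1) - (n : ℝ) ^ (d + 1) := by
      rw [sub_nonneg]
      refine pow_le_pow_left₀ hn0 ?_ _
      push_cast
      nlinarith
    rw [abs_of_nonneg h6, abs_div, abs_of_pos hq0]
    have h7 : |ρ| / q * (((n + q * m : ℕ) : ℝ) ^ (d + 1) - (n : ℝ) ^ (d + 1)) ≤
        (Q / (N : ℝ) ^ (d + 1)) / q * ((d + 1) * (2 * N) ^ d * (q * m)) :=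
      mul_le_mul (div_le_div_of_nonneg_right ha hq0.le) h5 h6 (by positivity)
    rw [wr_alg Q N q m d hN0 hq0] at h7
    have h8 : Q * m ≤ 2 * (Q * z) := by
      have := mul_le_mul_of_nonneg_left (le_trans hm' hT2) hQ0.le
      linarith
    have h9 : ((d : ℝ) + 1) * 2 ^ d * (Q * m) / N ≤ δ / (32 * Real.pi) := by
      rw [div_le_div_iff₀ hN0 (by positivity)]
      calc ((d : ℝ) + 1) * 2 ^ d * (Q * m) * (32 * Real.pi)
          ≤ ((d : ℝ) + 1) * 2 ^ d * (2 * (Q * z)) * (32 * Real.pi) := by gcongr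
        _ = C * Q * z := by rw [hC]; ring
        _ = δ * N := hzN
    calc 2 * Real.pi * (|ρ| / q * (((n + q * m : ℕ) : ℝ) ^ (d + 1) - (n : ℝ) ^ (d + 1)))
        ≤ 2 * Real.pi * (δ / (32 * Real.pi)) :=
          mul_le_mul_of_nonneg_left (le_trans h7 h9) (by positivity)
      _ = δ / 16 := by field_simp; ring
  have h10 : ‖∑ m ∈ range T, ee (pl (d + 1) c ((n + q * m : ℕ) : ℝ)) -
      ee (pl (d + 1) c n) * ∑ m ∈ range T, ee (pl d (phr d q n c) m)‖ ≤ T * (δ / 16) := by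
    rw [Finset.mul_sum, ← Finset.sum_sub_distrib]
    refine le_trans (norm_sum_le _ _) (le_trans (Finset.sum_le_sum hterm) (le_of_eq ?_))
    rw [Finset.sum_const, card_range, nsmul_eq_mul]
  have h11 := norm_sub_norm_le (∑ m ∈ range T, ee (pl (d + 1) c ((n + q * m : ℕ) : ℝ)))
    (ee (pl (d + 1) c n) * ∑ m ∈ range T, ee (pl d (phr d q n c) m))
  rw [norm_mul, norm_ee, one_mul] at h11
  have h12 : 0 ≤ δ * T := by positivity
  linarith

end Pool.Agent.H84.LVP
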